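import Pool.Graph.R_seed8.Y677.RSZ.FinInst

/-!
Arithmetic progressions in sets of primes of positive relative density in a window `(P, (1 + κ) P]`.
-/

set_option autoImplicit false

open Finset Filter Topology

namespace Pool.Agent.Helper81.Gap

open Pool.Agent.TH977.PW (N)
open Pool.Agent.Y677.RSZ (Outside InProg narrow_lin)

/-- long arithmetic progressions in sets of primes of positive relative density in a window -/
theorem ap_good (φ κ : ℝ) (hφ : 1 ≤ φ) (hκ : 0 < κ) (hκ1 : κ ≤ 1) (l : ℕ) :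
    ∃ P₁ : ℕ, ∀ P : ℕ, P₁ ≤ P → ∀ Good : Finset ℕ,
      (∀ p ∈ Good, p ∈ Ioc P ⌊(1 + κ) * P⌋₊ ∧ p.Prime) →
      (5 / 8 : ℝ) * (κ * P / (φ * Real.log P)) ≤ Good.card →
      ∃ u d : ℕ, 1 ≤ d ∧ ∀ i < l, u + i * d ∈ Good := by
  classical
  obtain ⟨r0, hr0, h1⟩ := narrow_lin (ι := Unit) (fun _ => 1) (fun _ => 0) (fun _ => one_pos)
    (fun _ => by rw [Nat.cast_one]; exact isCoprime_one_left) (fun _ _ _ _ => rfl)
    (fun p hp => ⟨1, fun _ hd => by
      have h2 : (p : ℤ) ∣ 1 := by simpa using hd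
      have h3 : p ∣ 1 := by exact_mod_cast h2
      exact hp.one_lt.ne' (Nat.dvd_one.1 h3)⟩)
    (fun r => {m | ∀ i : Unit, ∀ p : ℕ, p.Prime → (p : ℤ) ∣ ((fun _ : Unit => (1 : ℕ)) i : ℤ) * m +
      (fun _ : Unit => (0 : ℤ)) i → (m : ℝ) ^ (1 / (r : ℝ)) < (p : ℝ)})
    (fun _ => Set.univ) 1 (by simp) (fun r m _ h => h) (fun _ _ _ _ _ => Set.mem_univ _)
    (1 / 2) (by norm_num) (by norm_num)
  obtain ⟨-, h2⟩ := h1 r0 le_rfl
  obtain ⟨B, hB⟩ := h2 (max l 2) (le_max_right _ _) (1 / (2 * φ)) (by positivity)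
  obtain ⟨P₂, hP₂⟩ := eventually_atTop.1 hB
  refine ⟨P₂ + ⌈16 / κ ^ 2⌉₊ + 16, fun P hP Good hG hc => ?_⟩
  have hP0 : (16 : ℝ) ≤ P := by exact_mod_cast (by omega : 16 ≤ P)
  have hPκ : 16 / κ ^ 2 ≤ P := (Nat.le_ceil _).trans (Nat.cast_le.2 (by omega))
  rw [div_le_iff₀ (by positivity)] at hPκ
  set Y : ℕ := ⌊(1 + κ) * P⌋₊ - P with hY
  have hfl : P ≤ ⌊(1 + κ) * P⌋₊ := by
    apply Nat.le_floor
    nlinarith
  have hYP : P + Y = ⌊(1 + κ) * P⌋₊ := by omega
  have hY1 : (Y : ℝ) ≤ κ * P := by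
    have h3 : ((P + Y : ℕ) : ℝ) ≤ (1 + κ) * P := by
      rw [hYP]
      exact Nat.floor_le (by positivity)
    push_cast at h3
    linarith
  have hY2 : κ * P - 1 ≤ Y := by
    have h3 : (1 + κ) * P < ((P + Y : ℕ) : ℝ) + 1 := by
      rw [hYP]
      exact Nat.lt_floor_add_one _
    push_cast at h3
    linarith
  have hsq : Real.sqrt P ^ 2 = P := Real.sq_sqrt (by linarith)
  have hsq0 : 0 ≤ Real.sqrt P := Real.sqrt_nonneg _
  have hκs : 4 ≤ κ * Real.sqrt P := by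
    have : (4 : ℝ) ^ 2 ≤ (κ * Real.sqrt P) ^ 2 := by
      rw [mul_pow, hsq]
      linarith
    exact le_of_sq_le_sq this (by positivity)
  have hs1 : 1 ≤ Real.sqrt P := by
    nlinarith
  have hY3 : (P : ℝ) ^ (1 / 2 : ℝ) ≤ Y := by
    rw [← Real.sqrt_eq_rpow]
    nlinarith
  have hY4 : Y ≤ P := by
    have : (Y : ℝ) ≤ P := by nlinarith
    exact_mod_cast this
  have hsub : (Good : Set ℕ) ⊆ {m | ∀ i : Unit, ∀ p : ℕ, p.Prime →
      (p : ℤ) ∣ ((fun _ : Unit => (1 : ℕ)) i : ℤ) * m +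
      (fun _ : Unit => (0 : ℤ)) i → (m : ℝ) ^ (1 / (r0 : ℝ)) < (p : ℝ)} := by
    intro m hm i p hp hd
    have hmp := (hG m (by exact_mod_cast hm)).2
    have h3 : (p : ℤ) ∣ (m : ℤ) := by simpa using hd
    have h4 : p ∣ m := by exact_mod_cast h3
    have h5 : p = m := (Nat.prime_dvd_prime_iff_eq hp hmp).1 h4
    rw [h5]
    have h6 : (1 : ℝ) < m := by exact_mod_cast hmp.one_lt
    have h7 : (1 / (r0 : ℝ)) < 1 := by
      rw [div_lt_one (by exact_mod_cast (by omega : 0 < r0))]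
      exact_mod_cast (by omega : 1 < r0)
    calc (m : ℝ) ^ (1 / (r0 : ℝ)) < (m : ℝ) ^ (1 : ℝ) := Real.rpow_lt_rpow_of_exponent_lt h6 h7
      _ = m := Real.rpow_one _
  have h3 := hP₂ P (by omega) Y hY3 hY4 (Good : Set ℕ) hsub
  rw [pow_one] at h3
  have hlogP : 0 < Real.log P := Real.log_pos (by linarith)
  -- some element of `Good` is in a progression
  have hex : ∃ m ∈ Good, m ∉ Outside (Good : Set ℕ) (max l 2) (Real.log P ^ B) P (P + Y) := by
    by_contra hcon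
    push Not at hcon
    have h4 : (Good.card : ℝ) ≤ N (Outside (Good : Set ℕ) (max l 2) (Real.log P ^ B) P (P + Y)) P (P + Y) := by
      unfold Pool.Agent.TH977.PW.N
      apply Nat.cast_le.2
      apply card_le_card
      intro m hm
      rw [mem_filter]
      refine ⟨?_, hcon m hm⟩
      rw [hYP]
      exact (hG m hm).1
    have h5 := hc.trans (h4.trans h3)
    have h6 : 1 / (2 * φ) * (Y : ℝ) / Real.log P ≤ 1 / (2 * φ) * (κ * P) / Real.log P := by gcongr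
    have h7 := h5.trans h6
    have e1 : (5 / 8 : ℝ) * (κ * P / (φ * Real.log P)) = (5 / 8) * (κ * P / (φ * Real.log P)) := rfl
    have e2 : 1 / (2 * φ) * (κ * P) / Real.log P = (1 / 2) * (κ * P / (φ * Real.log P)) := by
      field_simp
    rw [e2] at h7
    have h8 : 0 < κ * P / (φ * Real.log P) := by positivity
    linarith
  obtain ⟨m, hm, hmO⟩ := hex
  have h4 : InProg (Good : Set ℕ) (max l 2) (Real.log P ^ B) P (P + Y) m := by
    by_contra hcon
    exact hmO ⟨by exact_mod_cast hm, hcon⟩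
  obtain ⟨u, d, hd, -, hud, -⟩ := h4
  exact ⟨u, d, hd, fun i hi => by exact_mod_cast (hud i (lt_of_lt_of_le hi (le_max_left _ _))).1⟩

end Pool.Agent.Helper81.Gap
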