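import Pool.Graph.R_seed8.Y958.U.Lam
import Pool.Agent.Helper81.Gap.Ap

/-!
The number theoretic input: if the average of `λ (n + x_1) ⋯ λ (n + x_k)` over a periodic set is in
absolute value at least `(1 - 2 q) v` at a set of scales which does not have logarithmic density zero, then
there are a shift invariant mean and arbitrarily long arithmetic progressions of primes `p`, such that
`λ (n + p x_1) ⋯ λ (n + p x_k) = σ` on the periodic set up to an exceptional set of mean at most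
`q v + κ`, for one sign `σ`, and such that all two point correlations vanish.
-/

set_option autoImplicit false

open Finset Filter Topology

namespace Pool.Agent.Helper81.Gap

open Pool.Agent.TH112.BL (Bd QD win)
open Pool.Agent.TH823.MRS (ExpoSmall FlipAll lam_bdd lam_flip expo_lam)
open Pool.Agent.H376R2.MR (lam)
open Pool.Agent.Y958.TC (NM ind Bd_ind ind_nonneg m_class m_sum m_shift um Av Av_bd um_tendsto sS
  sS_tendsto div_atTop two per_mod sum_inv_large exists_ultra alp alp_f alp_mod Df b1 bad_sum dec QDp)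
open Pool.Agent.Y958.U

lemma lam_pm (n : ℕ) : lam n = 1 ∨ lam n = -1 := by
  have h : ((lam n : ℤ) : ℝ) = (-1 : ℝ) ^ ArithmeticFunction.cardFactors n := lam_real n
  rcases neg_one_pow_eq_or ℝ (ArithmeticFunction.cardFactors n) with h1 | h1
  · left
    rw [h1] at h
    exact_mod_cast h
  · right
    rw [h1] at h
    exact_mod_cast h

lemma lam_sq (n : ℕ) : lam n * lam n = 1 := by
  rcases lam_pm n with h | h <;> rw [h] <;> norm_num

/-- products of values of `λ` -/
lemma prod_lam_pm {k : ℕ} (y : Fin k → ℕ) : (∏ i, lam (y i)) = 1 ∨ (∏ i, lam (y i)) = -1 := by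
  apply Finset.prod_induction (fun i => lam (y i)) (fun z => z = 1 ∨ z = -1)
  · rintro a b (rfl | rfl) (rfl | rfl) <;> norm_num
  · left; rfl
  · intro i _
    exact lam_pm _

theorem nt (k : ℕ) (x : Fin k → ℕ) (V : ℕ → Prop) (A : ℕ) (hA : 1 ≤ A)
    (hV : ∀ n, V (n + A) ↔ V n) (q : ℝ)
    (hcon : ¬ LZ {N | (1 - 2 * q) * dv V A < |Av N (fun n => ind V n * ∏ i, (lam (n + x i) : ℝ))|})
    (κ₁ : ℝ) (hκ₁ : 0 < κ₁) (l : ℕ) :
    ∃ μ : NM, (∀ (y : ℤ) (R : ℕ), 1 ≤ R →
        μ.m (fun n => ind V n * ((lam (((n : ℤ) + y).toNat) * lam (((n : ℤ) + y + R).toNat) : ℤ) : ℝ)) = 0) ∧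
      ∃ σ : ℤ, (σ = 1 ∨ σ = -1) ∧ ∃ u d : ℕ, 1 ≤ d ∧ (2 ≤ l → A ∣ d) ∧ ∀ c < l, (u + c * d).Prime ∧
        (u + c * d) % A = 1 % A ∧
        μ.m (ind (fun n => V n ∧ ∏ i, lam (n + (u + c * d) * x i) ≠ σ)) ≤ q * dv V A + κ₁ := by
  classical
  set f : ℕ → ℤ := lam with hfd
  have hb : ∀ n, |f n| ≤ 1 := lam_bdd
  have hf : FlipAll f := lam_flip
  have hE : ExpoSmall (fun n => (f n : ℂ)) := expo_lam
  set e : Fin k → ℕ := fun _ => 1 with hed
  set ψ : ℕ → ℝ := fun n => ind V n * ∏ i, (f (n + x i) : ℝ) ^ e i with hψd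
  have hψe : (fun n => ind V n * ∏ i, (lam (n + x i) : ℝ)) = ψ := by
    rw [hψd]
    funext n
    simp only [hed, pow_one, hfd]
  rw [hψe] at hcon
  set v : ℝ := dv V A with hvd
  set E : Set ℕ := {N | (1 - 2 * q) * v < |Av N ψ|} with hEd
  set κ : ℝ := min (κ₁ / 2) (1 / 4) with hκd
  have hκ0 : 0 < κ := by rw [hκd]; positivity
  have hκ1 : κ ≤ 1 / 4 := min_le_right _ _
  have hκ2 : κ ≤ κ₁ / 2 := min_le_left _ _
  have hφA : (1 : ℝ) ≤ A.totient := by exact_mod_cast Nat.totient_pos.2 hA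
  obtain ⟨P₁, hP₁⟩ := ap_good (A.totient : ℝ) κ hφA hκ0 (by linarith) l
  obtain ⟨P₀, hP₀⟩ := Pool.Agent.Y304.U.pw A hA κ hκ0 (by linarith)
  set ε : ℝ := κ ^ 2 / (64 * (A.totient : ℝ)) with hεd
  have hε0 : 0 < ε := by positivity
  have hfr : ∀ n, |(f n : ℝ)| ≤ 1 := by
    intro n; exact_mod_cast hb n
  have : NeZero A := ⟨by omega⟩
  -- one exceptional set for all two point correlations
  obtain ⟨E', hE'Z, hE'⟩ := diag' (fun t : ℕ × ℕ => E2 f V A (t.1 + 1) (1 / ((t.2 : ℝ) + 1)))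
    (fun t => E2_LZ s_avc f hb hf hE V A (t.1 + 1) hA hV (by omega) _ (by positivity))
  obtain ⟨ε', hε', I₀, hAv⟩ := s_avc E E' hcon hE'Z
  set η : ℝ := (ε / 30) * ε / 3 with hη
  have hη0 : 0 < η := by positivity
  have hlim : Tendsto (fun i : ℕ => (i : ℝ) / 2 ^ i) atTop (𝓝 0) := by
    have := tendsto_pow_const_div_const_pow_of_one_lt 1 (show (1 : ℝ) < 2 by norm_num)
    simpa using this
  have hlim2 : Tendsto (fun i : ℕ => (6 * k : ℝ) / 2 ^ i) atTop (𝓝 0) := by
    have h1 := tendsto_pow_const_div_const_pow_of_one_lt 0 (show (1 : ℝ) < 2 by norm_num)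
    have h2 := h1.const_mul (6 * k : ℝ)
    simp only [pow_zero, mul_zero] at h2
    refine h2.congr fun i => ?_
    ring
  obtain ⟨I₂, hI₂⟩ := eventually_atTop.1 (hlim.eventually_lt_const hη0)
  obtain ⟨I₃, hI₃⟩ := eventually_atTop.1 (hlim2.eventually_lt_const hε0)
  set i₀ : ℕ := I₀ + I₂ + I₃ + P₀ + P₁ + A + 1 with hi₀
  set cW : ℕ := 2 * (1 + ∑ i, x i) with hcW
  set B : ℝ := cW * Real.log (Fintype.card (SignType × ZMod A)) / η with hBd
  have hB0 : 0 ≤ B := by
    rw [hBd]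
    have : 0 ≤ Real.log (Fintype.card (SignType × ZMod A)) := Real.log_natCast_nonneg _
    positivity
  obtain ⟨i₁, hi₁, hS⟩ := sum_inv_large i₀ (by omega) (3 * B / ε')
  set S : ℝ := ∑ i ∈ Ico i₀ i₁, (1 : ℝ) / i with hSd
  obtain ⟨𝓤, hU, hmem⟩ := exists_ultra {M : ℕ | M ∉ E' ∧ ε' * S ≤
      ∑ i ∈ Ico i₀ i₁, (1 : ℝ) / i * ∑ p ∈ QQ i, Real.log p / 2 ^ i * (if M / p ∈ E then 1 else 0)}
    (fun M₀ => by
      obtain ⟨M, hM1, hM2, hM3⟩ := hAv i₀ i₁ (by omega) hi₁ M₀
      exact ⟨M, hM1, hM2, hM3⟩)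
  have hψ : ∀ n, |ψ n| ≤ 1 := by
    intro n
    have h1 : |ind V n| ≤ 1 := by unfold ind; split_ifs <;> norm_num
    rw [hψd]
    simp only
    rw [abs_mul]
    calc |ind V n| * |∏ i, (f (n + x i) : ℝ) ^ e i| ≤ 1 * 1 :=
          mul_le_mul h1 (prod_le f hb e _) (abs_nonneg _) zero_le_one
      _ = 1 := one_mul 1
  have hw0 : ∀ i, ∀ p ∈ QD i (i + 1), 0 ≤ Real.log (p : ℝ) / 2 ^ i := fun i p _ =>
    div_nonneg (Real.log_natCast_nonneg _) (by positivity)
  have hbad := bad_sum (um 𝓤 hU) (alp f A) cW η hη0 i₀ i₁ (by omega)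
  have hex : ∃ i ∈ Ico i₀ i₁, Df (um 𝓤 hU) (alp f A) b1 () cW i ≤ η * 2 ^ i / i ∧
      ∃ p₀ ∈ QD i (i + 1), {M : ℕ | M / p₀ ∈ E} ∈ (𝓤 : Filter ℕ) := by
    by_contra hno
    push Not at hno
    have hev : ∀ᶠ M in (𝓤 : Filter ℕ), ∀ i ∈ (Ico i₀ i₁).filter
        (fun i => Df (um 𝓤 hU) (alp f A) b1 () cW i ≤ η * 2 ^ i / i), ∀ p ∈ QD i (i + 1), M / p ∉ E := by
      rw [Filter.eventually_all_finset]
      intro i hi
      rw [mem_filter] at hi
      rw [Filter.eventually_all_finset]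
      intro p hp
      have h1 := hno i hi.1 hi.2 p hp
      exact Ultrafilter.compl_mem_iff_notMem.2 h1
    obtain ⟨M, hM1, hM2⟩ := (hev.and hmem).exists
    obtain ⟨-, hM3⟩ := hM2
    have h4 : ∑ i ∈ Ico i₀ i₁, (1 : ℝ) / i * ∑ p ∈ QQ i, Real.log p / 2 ^ i *
        (if M / p ∈ E then 1 else 0) ≤ 3 * B := by
      rw [← sum_filter_add_sum_filter_not (Ico i₀ i₁)
        (fun i => Df (um 𝓤 hU) (alp f A) b1 () cW i ≤ η * 2 ^ i / i)]
      have h5 : ∑ i ∈ (Ico i₀ i₁).filter (fun i => Df (um 𝓤 hU) (alp f A) b1 () cW i ≤ η * 2 ^ i / i),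
          (1 : ℝ) / i * ∑ p ∈ QQ i, Real.log p / 2 ^ i * (if M / p ∈ E then 1 else 0) = 0 := by
        apply sum_eq_zero
        intro i hi
        rw [sum_eq_zero, mul_zero]
        intro p hp
        rw [if_neg (hM1 i hi p hp), mul_zero]
      rw [h5, zero_add]
      have h6 : ∀ i ∈ (Ico i₀ i₁).filter (fun i => ¬ Df (um 𝓤 hU) (alp f A) b1 () cW i ≤ η * 2 ^ i / i),
          (1 : ℝ) / i * ∑ p ∈ QQ i, Real.log p / 2 ^ i * (if M / p ∈ E then 1 else 0) ≤ 1 / i * 3 := by
        intro i _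
        apply mul_le_mul_of_nonneg_left _ (by positivity)
        have h5 : (0 : ℝ) < 2 ^ i := by positivity
        calc ∑ p ∈ QQ i, Real.log p / 2 ^ i * (if M / p ∈ E then (1 : ℝ) else 0) ≤
              ∑ p ∈ QD i (i + 1), Real.log (p : ℝ) / 2 ^ i := by
              apply sum_le_sum
              intro p hp
              have := hw0 i p hp
              split_ifs <;> linarith
          _ = (∑ p ∈ QD i (i + 1), Real.log (p : ℝ)) / 2 ^ i := by rw [sum_div]
          _ ≤ 3 := by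
              rw [div_le_iff₀ h5]
              exact Pool.Agent.TH575.CW.theta_QD i
      refine (sum_le_sum h6).trans ?_
      rw [← sum_mul, mul_comm]
      exact mul_le_mul_of_nonneg_left hbad (by norm_num)
    have h7 := hM3.trans h4
    rw [div_lt_iff₀ hε'] at hS
    nlinarith
  obtain ⟨i, hi, hDf, p₀, hp₀, hmem0⟩ := hex
  rw [mem_Ico] at hi
  have hip : i < 2 ^ i := Nat.lt_two_pow_self
  have hs0 : (1 - 2 * q) * v ≤ |sS 𝓤 ψ p₀| := by
    apply ge_of_tendsto (sS_tendsto 𝓤 hψ p₀).abs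
    filter_upwards [hmem0] with M hM
    exact le_of_lt hM
  obtain ⟨P, hP1, hP2, hPw⟩ := window κ hκ0 hκ1 i p₀ hp₀
  set Pset : Finset ℕ := (Ioc P ⌊(1 + κ) * P⌋₊).filter (fun p => p.Prime ∧ p % A = 1 % A) with hPset
  have hPsub : Pset ⊆ QD i (i + 1) := by
    intro p hp
    rw [hPset, mem_filter] at hp
    unfold QD
    rw [mem_filter]
    exact ⟨(hPw p hp.1).1, hp.2.1⟩
  have hPc := hP₀ P (by omega)
  set μ := um 𝓤 hU with hμ
  set s : ℝ := ∏ i, (-1 : ℝ) ^ e i with hs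
  have hs1 : |s| = 1 := by
    rw [hs, abs_prod]
    apply prod_eq_one
    intro i _
    rw [abs_pow, abs_neg, abs_one, one_pow]
  have hdec := dec 𝓤 hU (alp f A) cW hε0 i (by omega) (hI₂ i (by omega)) hDf (Gp f V x e)
    (Gp_le f hb V x e) (by
      intro p hp n n' hwin j hj
      have hp2 : p ≤ 2 ^ (i + 1) := by
        unfold QD at hp
        rw [mem_filter, mem_Ioc] at hp
        exact hp.1.2
      have hidx : ∀ t, t < cW * 2 ^ i → alp f A (n + t) = alp f A (n' + t) := by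
        intro t ht
        exact congrFun hwin ⟨t, ht⟩
      have hbd : p * (1 + ∑ i, x i) ≤ cW * 2 ^ i := by
        have h3 : p * (1 + ∑ i, x i) ≤ 2 ^ (i + 1) * (1 + ∑ i, x i) := Nat.mul_le_mul_right _ hp2
        have h4 : 2 ^ (i + 1) * (1 + ∑ i, x i) = cW * 2 ^ i := by rw [hcW, pow_succ]; ring
        omega
      have h5 : p * (1 + ∑ i, x i) = p + p * ∑ i, x i := by ring
      have h2 : j < cW * 2 ^ i := by omega
      unfold Gp
      congr 1
      · apply ind_at
        apply V_congr hV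
        exact alp_mod (hidx j h2)
      · apply prod_congr rfl
        intro l _
        have h1 : j + p * x l < cW * 2 ^ i := by
          have h6 : x l ≤ ∑ i, x i := single_le_sum (f := x) (fun _ _ => Nat.zero_le _) (mem_univ l)
          have h7 : p * x l ≤ p * ∑ i, x i := Nat.mul_le_mul_left _ h6
          omega
        have e2 := alp_f hb (hidx (j + p * x l) h1)
        rw [add_assoc n j, e2, add_assoc n' j])
    (univ : Finset (Fin k)) x s hs1.le ψ hψ Pset hPsub (by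
      intro p hp m hm
      rw [hPset, mem_filter] at hp
      unfold Gp
      rw [hψd]
      simp only
      have e1 : ind V (p * m) = ind V m := by
        apply ind_at
        apply V_congr hV
        have h3 : p ≡ 1 [MOD A] := hp.2.2
        have := Nat.ModEq.mul_right m h3
        rwa [one_mul] at this
      rw [e1]
      have e2 : ∏ i, (f (p * m + p * x i) : ℝ) ^ e i = s * ∏ i, (f (m + x i) : ℝ) ^ e i := by
        rw [hs, ← prod_mul_distrib]
        apply prod_congr rfl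
        intro l _
        rw [show p * m + p * x l = p * (m + x l) by ring, hf p (m + x l) hp.2.1 (hm l (mem_univ l)),
          ← mul_pow]
        push_cast
        ring
      rw [e2]
      ring)
  rw [card_univ, Fintype.card_fin] at hdec
  have hI3 := hI₃ i (by omega)
  have hmany := many_good hκ0 hφA (le_of_eq hεd) i P (by omega) hP1 hP2 Pset hPsub hPc
    (fun p => |s * sS 𝓤 ψ p - μ.m (Gp f V x e p)|) (fun p => abs_nonneg _) (by linarith)
  set Good : Finset ℕ := Pset.filter (fun p => |s * sS 𝓤 ψ p - μ.m (Gp f V x e p)| ≤ κ) with hGood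
  obtain ⟨u, d, hd, hud⟩ := hP₁ P (by omega) Good (by
    intro p hp
    rw [hGood, mem_filter, hPset, mem_filter] at hp
    exact ⟨hp.1.1, hp.1.2.1⟩) hmany
  -- the sign
  set σ : ℤ := if 0 ≤ s * sS 𝓤 ψ p₀ then 1 else -1 with hσ
  have hσ1 : σ = 1 ∨ σ = -1 := by rw [hσ]; split_ifs <;> simp
  have hσ2 : (σ : ℝ) * (s * sS 𝓤 ψ p₀) = |sS 𝓤 ψ p₀| := by
    have : |s * sS 𝓤 ψ p₀| = |sS 𝓤 ψ p₀| := by rw [abs_mul, hs1, one_mul]
    rw [← this, hσ]
    split_ifs with h0
    · rw [abs_of_nonneg h0]; norm_num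
    · rw [abs_of_neg (not_le.1 h0)]; norm_num
  have hσr : |(σ : ℝ)| = 1 := by
    rcases hσ1 with h | h <;> rw [h] <;> norm_num
  refine ⟨μ, ?_, σ, hσ1, u, d, hd, ?_, ?_⟩
  · intro y R hR
    have h1 : ∀ j : ℕ, |μ.m (fun n => ind V n * ((lam (((n : ℤ) + y).toNat) *
        lam (((n : ℤ) + y + R).toNat) : ℤ) : ℝ))| ≤ 1 / ((j : ℝ) + 1) := by
      intro j
      apply two_bound 𝓤 hU f hb V A R hA hV
      obtain ⟨N₀, hN₀⟩ := hE' (R - 1, j)
      have e1 : R - 1 + 1 = R := by omega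
      simp only [e1] at hN₀
      filter_upwards [hmem, hU (eventually_ge_atTop N₀)] with M hM hM2
      intro hME
      exact hM.1 (hN₀ M hME hM2)
    have h2 : Tendsto (fun j : ℕ => 1 / ((j : ℝ) + 1)) atTop (𝓝 0) :=
      tendsto_one_div_add_atTop_nhds_zero_nat
    have h3 := ge_of_tendsto' h2 h1
    exact abs_eq_zero.1 (le_antisymm h3 (abs_nonneg _))
  · intro hl
    have h0 := hud 0 (by omega)
    have h1 := hud 1 (by omega)
    rw [hGood, mem_filter, hPset, mem_filter] at h0 h1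
    have e0 : (u + 0 * d) % A = 1 % A := h0.1.2.2
    have e1 : (u + 1 * d) % A = 1 % A := h1.1.2.2
    have h2 : u + 0 * d ≡ u + 1 * d [MOD A] := e0.trans e1.symm
    rw [zero_mul, one_mul, add_zero] at h2
    have h3 := (Nat.modEq_iff_dvd' (by omega : u ≤ u + d)).1 h2
    rwa [Nat.add_sub_cancel_left] at h3
  · intro c hc
    set p : ℕ := u + c * d with hp
    have hpG : p ∈ Good := hud c hc
    rw [hGood, mem_filter] at hpG
    have hpP := hpG.1
    rw [hPset, mem_filter] at hpP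
    refine ⟨hpP.2.1, hpP.2.2, ?_⟩
    have hwin := (hPw p hpP.1).2
    have h2 : |sS 𝓤 ψ p₀ - sS 𝓤 ψ p| ≤ 2 * κ := by
      rcases le_total p₀ p with h3 | h3
      · refine (sS_cont 𝓤 hU hψ (QDp hp₀).pos h3).trans ?_
        have := hwin.1 h3
        linarith
      · rw [abs_sub_comm]
        refine (sS_cont 𝓤 hU hψ hpP.2.1.pos h3).trans ?_
        have := hwin.2 h3
        linarith
    have h3 : |s * sS 𝓤 ψ p₀ - μ.m (Gp f V x e p)| ≤ 3 * κ := by
      have h4 : |s * sS 𝓤 ψ p₀ - s * sS 𝓤 ψ p| ≤ 2 * κ := by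
        rw [← mul_sub, abs_mul, hs1, one_mul]
        exact h2
      have h5 := abs_sub_le (s * sS 𝓤 ψ p₀) (s * sS 𝓤 ψ p) (μ.m (Gp f V x e p))
      linarith [hpG.2]
    have h4 : |sS 𝓤 ψ p₀| - 3 * κ ≤ σ * μ.m (Gp f V x e p) := by
      have h5 : |(σ : ℝ) * (s * sS 𝓤 ψ p₀) - σ * μ.m (Gp f V x e p)| ≤ 3 * κ := by
        rw [← mul_sub, abs_mul, hσr, one_mul]
        exact h3
      rw [hσ2] at h5
      have := abs_le.1 h5
      linarith
    have hBG : Bd (Gp f V x e p) := ⟨1, fun n => Gp_le f hb V x e p n⟩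
    have h5 : σ * μ.m (Gp f V x e p) + 2 * μ.m (ind (fun n => V n ∧ ∏ i, lam (n + p * x i) ≠ σ)) ≤
        μ.m (ind V) := by
      rw [← μ.smul _ _ hBG, ← μ.smul _ _ (Bd_ind _), ← μ.add _ _ (hBG.cmul _) ((Bd_ind _).cmul _)]
      apply μ.mono ((hBG.cmul _).add ((Bd_ind _).cmul _)) (Bd_ind V)
      intro n
      unfold Gp
      have e0 : (∏ i, (f (n + p * x i) : ℝ) ^ e i) = ((∏ i, lam (n + p * x i) : ℤ) : ℝ) := by
        push_cast
        apply prod_congr rfl
        intro j _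
        rw [hed, hfd]
        simp
      rw [e0]
      by_cases hVn : V n
      · have e1 : ind V n = 1 := by unfold ind; rw [if_pos hVn]
        rw [e1]
        by_cases h6 : ∏ i, lam (n + p * x i) = σ
        · have e2 : ind (fun n => V n ∧ ∏ i, lam (n + p * x i) ≠ σ) n = 0 := by
            unfold ind; rw [if_neg]; exact fun h => h.2 h6
          rw [e2, h6]
          rcases hσ1 with h | h <;> rw [h] <;> norm_num
        · have e2 : ind (fun n => V n ∧ ∏ i, lam (n + p * x i) ≠ σ) n = 1 := by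
            unfold ind; rw [if_pos ⟨hVn, h6⟩]
          rw [e2]
          have hw := prod_lam_pm (fun i => n + p * x i)
          generalize (∏ i, lam (n + p * x i)) = w at h6 hw ⊢
          rcases hw with rfl | rfl <;> rcases hσ1 with h' | h' <;> rw [h'] at h6 ⊢ <;>
            first | exact absurd rfl h6 | norm_num
      · have e1 : ind V n = 0 := by unfold ind; rw [if_neg hVn]
        have e2 : ind (fun n => V n ∧ ∏ i, lam (n + p * x i) ≠ σ) n = 0 := by
          unfold ind; rw [if_neg]; exact fun h => hVn h.1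
        rw [e1, e2]
        simp
    rw [m_V μ hA hV, ← hvd] at h5
    linarith

end Pool.Agent.Helper81.Gap
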