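import Pool.Agent.Helper81.Gap.Mean
import Pool.Agent.Helper81.Gap.Nt

/-!
The explicit bound for shifts.
-/

set_option autoImplicit false

open Finset Filter Topology

namespace Pool.Agent.Helper81.Gap

open Pool.Agent.TH112.BL (Bd)
open Pool.Agent.H376R2.MR (lam)
open Pool.Agent.Y958.TC (NM ind Bd_ind ind_nonneg m_shift Av)
open Pool.Agent.Y958.U

/-- invariance under integer shifts -/
lemma m_shiftZ (μ : NM) (F : ℕ → ℝ) (hF : Bd F) (T : ℤ) :
    μ.m (fun n => F (((n : ℤ) + T).toNat)) = μ.m F := by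
  have hB : Bd (fun n : ℕ => F (((n : ℤ) + T).toNat)) := by
    obtain ⟨C, hC⟩ := hF
    exact ⟨C, fun n => hC _⟩
  rcases le_total 0 T with h | h
  · obtain ⟨t, rfl⟩ := Int.eq_ofNat_of_zero_le h
    have e : (fun n : ℕ => F (((n : ℤ) + (t : ℤ)).toNat)) = fun n => F (n + t) := by
      funext n
      congr 1
    rw [e]
    exact m_shift μ F hF t
  · obtain ⟨t, ht⟩ := Int.eq_ofNat_of_zero_le (by omega : 0 ≤ -T)
    rw [← m_shift μ _ hB t]
    congr 1
    funext n
    congr 1
    omega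

lemma dv_true : dv (fun _ => True) 1 = 1 := by
  unfold dv
  simp

theorem shift_LZ (k : ℕ) (hk : 1 ≤ k) (x : Fin k → ℕ) (hx : Function.Injective x) (q : ℝ) (hq0 : 0 ≤ q)
    (hq : (2 * (k : ℝ) ^ 2 - k + 3) * q < 1) :
    LZ {N | (1 - 2 * q) < |Av N (fun n => ∏ i, (lam (n + x i) : ℝ))|} := by
  classical
  by_contra hcon
  set Q : ℝ := 2 * (k : ℝ) ^ 2 - k + 3 with hQ
  have hk1 : (1 : ℝ) ≤ k := by exact_mod_cast hk
  have hQ0 : 0 < Q := by rw [hQ]; nlinarith
  set ε : ℝ := (1 - Q * q) / 2 with hε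
  have hε0 : 0 < ε := by rw [hε]; linarith
  have hcon' : ¬ LZ {N | (1 - 2 * q) * dv (fun _ => True) 1 <
      |Av N (fun n => ind (fun _ => True) n * ∏ i, (lam (n + x i) : ℝ))|} := by
    have e : ∀ n, ind (fun _ => True) n = 1 := fun n => by unfold ind; rw [if_pos trivial]
    simp only [e, one_mul, dv_true, mul_one]
    exact hcon
  obtain ⟨K, hK⟩ := rs_mean k (fun i => (x i : ℤ)) (fun i j h => hx (by
      have h' : (x i : ℤ) = x j := h
      exact_mod_cast h')) ⟨0, hk⟩ ε hε0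
  obtain ⟨μ, htwo, σ, hσ, u, d, hd, -, hrel⟩ := nt k x (fun _ => True) 1 le_rfl (fun _ => Iff.rfl) q hcon'
    (ε / (2 * Q)) (by positivity) (2 * K + 1)
  set p0 : ℤ := u + K * d with hp0
  set Y : ℤ → ℤ → ℕ → ℤ := fun z y n => lam (((n : ℤ) + (p0 * z + d * y)).toNat) with hY
  have hYpm : ∀ z y n, Y z y n = 1 ∨ Y z y n = -1 := fun z y n => lam_pm _
  have h1 : ∀ u' v c : ℤ, |c| ≤ K →
      μ.m (ind (fun n => ∏ j, Y (u' + x j) (v + c * x j) n ≠ σ)) ≤ q + ε / (2 * Q) := by
    intro u' v c hc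
    rw [abs_le] at hc
    obtain ⟨c', hc'⟩ := Int.eq_ofNat_of_zero_le (by omega : 0 ≤ K + c)
    have hc2 : c' < 2 * K + 1 := by omega
    obtain ⟨-, -, h2⟩ := hrel c' hc2
    rw [dv_true, mul_one] at h2
    refine le_trans (le_of_eq ?_) h2
    set T : ℤ := p0 * u' + d * v with hT
    rw [← m_shiftZ μ (ind (fun n => True ∧ ∏ i, lam (n + (u + c' * d) * x i) ≠ σ)) (Bd_ind _) T]
    apply μ.congr_large (Bd_ind _) ⟨1, fun n => by unfold ind; split_ifs <;> norm_num⟩ T.natAbs
    intro n hn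
    apply ind_at
    rw [true_and]
    have e : ∀ j, Y (u' + x j) (v + c * x j) n = lam ((((n : ℤ) + T).toNat) + (u + c' * d) * x j) := by
      intro j
      rw [hY]
      simp only
      congr 1
      have h3 : (0 : ℤ) ≤ n + T := by omega
      have h4 : p0 * (u' + x j) + d * (v + c * x j) = T + ((u + c' * d) * x j : ℕ) := by
        push_cast
        rw [hT, ← hc', hp0]
        ring
      rw [h4, ← add_assoc, Int.toNat_add_nat h3]
    rw [prod_congr rfl fun j _ => e j]
  have h2 : ∀ z y y', y ≠ y' → μ.m (fun n => ((Y z y n * Y z y' n : ℤ) : ℝ)) = 0 := by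
    have h3 : ∀ z y y', y < y' → μ.m (fun n => ((Y z y n * Y z y' n : ℤ) : ℝ)) = 0 := by
      intro z y y' hyy
      obtain ⟨R, hR⟩ := Int.eq_ofNat_of_zero_le (by
        have : (0 : ℤ) ≤ d := by positivity
        nlinarith : 0 ≤ d * (y' - y))
      have hR1 : 1 ≤ R := by
        have : (1 : ℤ) ≤ d := by exact_mod_cast hd
        have h4 : (1 : ℤ) ≤ R := by rw [← hR]; nlinarith
        exact_mod_cast h4
      have h5 := htwo (p0 * z + d * y) R hR1
      rw [← h5]
      congr 1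
      funext n
      have e : ind (fun _ => True) n = 1 := by unfold ind; rw [if_pos trivial]
      rw [e, one_mul]
      have e2 : (n : ℤ) + (p0 * z + d * y') = (n : ℤ) + (p0 * z + d * y) + R := by
        rw [← hR]; ring
      rw [hY]
      simp only
      rw [e2]
    intro z y y' hne
    rcases lt_or_gt_of_ne hne with h | h
    · exact h3 z y y' h
    · rw [← h3 z y' y h]
      congr 1
      funext n
      rw [mul_comm]
  have h3 := hK μ Y σ (q + ε / (2 * Q)) (by positivity) hYpm hσ h1 h2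
  have h4 : Q * (q + ε / (2 * Q)) = Q * q + ε / 2 := by
    field_simp
  rw [h4] at h3
  linarith

end Pool.Agent.Helper81.Gap
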