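import Pool.Agent.Helper81.Gap.Nt
import Pool.Graph.R_seed8.Y958.U.Pol

/-!
The explicit bound for functions on periodic sets: `2 ^ (k - 1)` lines.
-/

set_option autoImplicit false

open Finset Filter Topology

namespace Pool.Agent.Helper81.Gap

open Pool.Agent.TH112.BL (Bd)
open Pool.Agent.H376R2.MR (lam)
open Pool.Agent.Y958.TC (NM ind Bd_ind ind_nonneg m_shift Av)
open Pool.Agent.Y958.U

/-- the Liouville function on the integers (`λ (n⁺)`) -/
def lz (n : ℤ) : ℤ := lam n.toNat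

lemma lz_tri : Tri lz := fun n => by
  rcases lam_pm n.toNat with h | h
  · right; right; exact h
  · left; exact h

abbrev LPol := LaurentPolynomial (ZMod 2)

lemma two_zero (p : LPol) : p + p = 0 := by
  have h : (2 : LPol) = 0 := by
    have h1 : (2 : LPol) = LaurentPolynomial.C (2 : ZMod 2) := by
      rw [map_ofNat]
    rw [h1, show (2 : ZMod 2) = 0 from rfl, map_zero]
  rw [← two_mul, h, zero_mul]

lemma one_T_pow (a : ℤ) (e : ℕ) :
    (1 + LaurentPolynomial.T a : LPol) ^ 2 ^ e = 1 + LaurentPolynomial.T (2 ^ e * a) := by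
  induction e with
  | zero => simp
  | succ e ih =>
    rw [pow_succ, pow_mul, ih]
    have h : (LaurentPolynomial.T (2 ^ e * a) : LPol) * LaurentPolynomial.T (2 ^ e * a) =
        LaurentPolynomial.T (2 ^ (e + 1) * a) := by
      rw [← LaurentPolynomial.T_add]
      congr 1
      ring
    calc (1 + LaurentPolynomial.T (2 ^ e * a) : LPol) ^ 2 =
          1 + (LaurentPolynomial.T (2 ^ e * a) + LaurentPolynomial.T (2 ^ e * a)) +
            LaurentPolynomial.T (2 ^ e * a) * LaurentPolynomial.T (2 ^ e * a) := by ring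
      _ = _ := by rw [two_zero, h, add_zero]

lemma sum_two_pow (m : ℕ) (hm : 1 ≤ m) : ∑ b : Fin m, 2 ^ ((b : ℕ) - 1) = 2 ^ (m - 1) := by
  rw [Fin.sum_univ_eq_sum_range (fun b => 2 ^ (b - 1)) m]
  induction m, hm using Nat.le_induction with
  | base => simp
  | succ m hm ih =>
    rw [sum_range_succ, ih, Nat.add_sub_cancel]
    obtain ⟨t, rfl⟩ : ∃ t, m = t + 1 := ⟨m - 1, by omega⟩
    rw [Nat.add_sub_cancel, pow_succ]
    ring

section

variable {m : ℕ} (x : Fin (m + 1) → ℕ) (u d : ℕ)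

/-- the relation of a line -/
noncomputable def gl (c : ℕ) : LPol := ∑ i, LaurentPolynomial.T (((u + c * d) * x i : ℕ) : ℤ)

lemma supp_gl (hx : Function.Injective x) (c : ℕ) (hp : 0 < u + c * d) :
    (gl x u d c).coeff.support = univ.image (fun i => (((u + c * d) * x i : ℕ) : ℤ)) := by
  classical
  have hinj : Function.Injective (fun i => (((u + c * d) * x i : ℕ) : ℤ)) := by
    intro i j h
    have h1 : (u + c * d) * x i = (u + c * d) * x j := by
      have h' : (((u + c * d) * x i : ℕ) : ℤ) = ((u + c * d) * x j : ℕ) := h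
      exact_mod_cast h'
    exact hx (Nat.eq_of_mul_eq_mul_left hp h1)
  ext z
  rw [Finsupp.mem_support_iff, mem_image]
  unfold gl
  rw [AddMonoidAlgebra.coeff_sum, Finsupp.finsetSum_apply]
  simp only [LaurentPolynomial.T_apply]
  constructor
  · intro h
    obtain ⟨i, -, hi⟩ := exists_ne_zero_of_sum_ne_zero h
    refine ⟨i, mem_univ _, ?_⟩
    by_contra hne
    apply hi
    rw [if_neg hne]
  · rintro ⟨i, -, hi⟩
    rw [sum_eq_single i]
    · rw [if_pos hi]
      exact one_ne_zero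
    · intro j _ hj
      rw [if_neg]
      intro h
      exact hj (hinj (h.trans hi.symm))
    · intro h
      exact absurd (mem_univ i) h

lemma Ph_gl (hx : Function.Injective x) (c : ℕ) (hp : 0 < u + c * d) (n : ℕ) :
    Ph lz (gl x u d c) n = ∏ i, lam (n + (u + c * d) * x i) := by
  classical
  unfold Ph
  rw [supp_gl x u d hx c hp, prod_image]
  · apply prod_congr rfl
    intro i _
    unfold lz
    congr 1
  · intro i _ j _ h
    have h' : (((u + c * d) * x i : ℕ) : ℤ) = ((u + c * d) * x j : ℕ) := h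
    have h1 : (u + c * d) * x i = (u + c * d) * x j := by exact_mod_cast h'
    exact hx (Nat.eq_of_mul_eq_mul_left hp h1)

variable (μ : NM) (V : ℕ → Prop) (ρ : ℝ) (A : ℕ)

/-- the relations of the partial cubes -/
lemma cube (hV : ∀ n, V (n + A) ↔ V n) (l : ℕ) (hAd : A ∣ d)
    (h0 : ∀ c < l, HH μ lz V ρ (gl x u d c) 1) (X : Fin m → ℕ) (r : Fin m → ℕ) (S : Finset (Fin m)) :
    ∀ c : ℕ, c + ∑ b ∈ S, r b < l →
      HH μ lz V ρ (∑ i, LaurentPolynomial.T (((u + c * d) * x i : ℕ) : ℤ) *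
        ∏ b ∈ S, (1 + LaurentPolynomial.T ((d : ℤ) * r b * (x i - X b)))) (2 ^ S.card) := by
  classical
  induction S using Finset.induction_on with
  | empty =>
    intro c hc
    simp only [prod_empty, mul_one, card_empty, pow_zero]
    exact h0 c (by simpa using hc)
  | insert b S hb ih =>
    intro c hc
    rw [sum_insert hb] at hc
    have h1 := ih c (by omega)
    have h2 := HH_T μ lz V ρ A hV _ _ (-((d : ℤ) * r b * X b)) (by
      apply (dvd_neg).2
      rw [mul_assoc]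
      exact Dvd.dvd.mul_right (by exact_mod_cast hAd) _) (ih (c + r b) (by omega))
    have h3 := HH_add μ lz V ρ lz_tri _ _ _ _ h1 h2
    rw [card_insert_of_notMem hb, pow_succ, mul_two]
    convert h3 using 1
    rw [mul_sum, ← sum_add_distrib]
    apply sum_congr rfl
    intro i _
    rw [prod_insert hb, ← mul_assoc (LaurentPolynomial.T (-((d : ℤ) * r b * X b))), ← LaurentPolynomial.T_add]
    have e : (LaurentPolynomial.T (-((d : ℤ) * r b * X b) + (((u + (c + r b) * d) * x i : ℕ) : ℤ)) : LPol) =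
        LaurentPolynomial.T (((u + c * d) * x i : ℕ) : ℤ) *
          LaurentPolynomial.T ((d : ℤ) * r b * (x i - X b)) := by
      rw [← LaurentPolynomial.T_add]
      congr 1
      push_cast
      ring
    rw [e]
    ring

end

/-- **the bound for periodic sets** -/
theorem cube_LZ (m : ℕ) (hm : 1 ≤ m) (x : Fin (m + 1) → ℕ) (hx : Function.Injective x) (V : ℕ → Prop) (A : ℕ)
    (hA : 1 ≤ A) (hV : ∀ n, V (n + A) ↔ V n) (hv : 0 < dv V A) (q : ℝ) (hq : 2 ^ (m + 1) * q < 1) :
    LZ {N | (1 - 2 * q) * dv V A < |Av N (fun n => ind V n * ∏ i, (lam (n + x i) : ℝ))|} := by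
  classical
  by_contra hcon
  set v : ℝ := dv V A with hvd
  obtain ⟨i1, hi1⟩ := Finite.exists_max x
  set X : Fin m → ℕ := fun b => x (i1.succAbove b) with hX
  have hXlt : ∀ b, X b < x i1 := fun b => lt_of_le_of_ne (hi1 _) fun h =>
    Fin.succAbove_ne i1 b (hx h)
  set D : Fin m → ℕ := fun b => x i1 - X b with hD
  have hD1 : ∀ b, 0 < D b := fun b => Nat.sub_pos_of_lt (hXlt b)
  set M : ℕ := ∏ b, D b with hM
  have hM1 : 0 < M := Finset.prod_pos fun b _ => hD1 b
  set r : Fin m → ℕ := fun b => 2 ^ ((b : ℕ) - 1) * ∏ b' ∈ univ.erase b, D b' with hr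
  have hrD : ∀ b, r b * D b = 2 ^ ((b : ℕ) - 1) * M := by
    intro b
    rw [hr, hM, ← mul_prod_erase univ D (mem_univ b)]
    ring
  have hr1 : ∀ b, 0 < r b := by
    intro b
    rw [hr]
    exact Nat.mul_pos (by positivity) (Finset.prod_pos fun b _ => hD1 b)
  set κ₁ : ℝ := v * (1 - 2 ^ (m + 1) * q) / 2 ^ (m + 2) with hκ
  have hκ0 : 0 < κ₁ := by
    rw [hκ]
    have : 0 < 1 - 2 ^ (m + 1) * q := by linarith
    positivity
  set l : ℕ := ∑ b, r b + 1 with hl
  have hl2 : 2 ≤ l := by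
    have h1 : r ⟨0, hm⟩ ≤ ∑ b, r b := single_le_sum (f := r) (fun _ _ => Nat.zero_le _) (mem_univ _)
    have h2 := hr1 ⟨0, hm⟩
    omega
  obtain ⟨μ, htwo, σ, hσ, u, d, hd, hAd, hrel⟩ := nt (m + 1) x V A hA hV q hcon κ₁ hκ0 l
  set ρ : ℝ := q * v + κ₁ with hρ
  have h0 : ∀ c < l, HH μ lz V ρ (gl x u d c) 1 := by
    intro c hc
    obtain ⟨hpr, -, h1⟩ := hrel c hc
    refine ⟨σ, hσ, ?_⟩
    rw [Nat.cast_one, one_mul]
    refine le_trans (le_of_eq ?_) h1
    congr 1
    funext n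
    apply ind_at
    rw [Ph_gl x u d hx c hpr.pos]
  have h1 := cube x u d μ V ρ A hV l (hAd hl2) h0 X r univ 0 (by rw [hl]; omega)
  rw [card_univ, Fintype.card_fin, Fin.sum_univ_succAbove _ i1] at h1
  have hz : ∑ j : Fin m, (LaurentPolynomial.T (((u + 0 * d) * x (i1.succAbove j) : ℕ) : ℤ) *
      ∏ b : Fin m, (1 + LaurentPolynomial.T ((d : ℤ) * r b * (x (i1.succAbove j) - X b))) : LPol) = 0 := by
    apply sum_eq_zero
    intro j _
    rw [prod_eq_zero (mem_univ j), mul_zero]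
    have : (d : ℤ) * r j * (x (i1.succAbove j) - X j) = 0 := by
      rw [hX]; ring
    rw [this, LaurentPolynomial.T_zero]
    exact two_zero 1
  have hmain : (∏ b : Fin m, (1 + LaurentPolynomial.T ((d : ℤ) * r b * (x i1 - X b))) : LPol) =
      1 + LaurentPolynomial.T ((2 ^ (m - 1) * (d * M) : ℕ) : ℤ) := by
    have h2 : ∀ b ∈ (univ : Finset (Fin m)), (1 + LaurentPolynomial.T ((d : ℤ) * r b * (x i1 - X b)) : LPol) =
        (1 + LaurentPolynomial.T ((d * M : ℕ) : ℤ)) ^ 2 ^ ((b : ℕ) - 1) := by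
      intro b _
      rw [one_T_pow]
      congr 2
      have h3 : ((r b * D b : ℕ) : ℤ) = ((2 ^ ((b : ℕ) - 1) * M : ℕ) : ℤ) := by rw [hrD]
      have h4 : ((D b : ℕ) : ℤ) = x i1 - X b := by
        rw [hD]
        exact Nat.cast_sub (hXlt b).le
      rw [← h4]
      push_cast at h3 ⊢
      calc (d : ℤ) * r b * D b = d * (r b * D b) := by ring
        _ = d * (2 ^ ((b : ℕ) - 1) * M) := by rw [h3]
        _ = _ := by ring
    rw [prod_congr rfl h2, prod_pow_eq_pow_sum, sum_two_pow m hm, one_T_pow]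
    congr 2
  rw [hz, add_zero, hmain] at h1
  have hR : 1 ≤ 2 ^ (m - 1) * (d * M) := by
    have : 0 < 2 ^ (m - 1) * (d * M) := by positivity
    exact this
  have h2 := HH_two μ lz V ρ lz_tri _ _ hR _ h1
  have h3 := htwo (((u + 0 * d) * x i1 : ℕ) : ℤ) _ hR
  have h4 : μ.m (fun n => ind V n * (lz (n + (((u + 0 * d) * x i1 : ℕ) : ℤ)) *
      lz (n + (((u + 0 * d) * x i1 : ℕ) : ℤ) + ((2 ^ (m - 1) * (d * M) : ℕ) : ℤ)) : ℤ)) = 0 := h3
  rw [h4, abs_zero, m_V μ hA hV, ← hvd] at h2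
  push_cast at h2
  have h5 : (2 : ℝ) ^ (m + 2) * κ₁ = v * (1 - 2 ^ (m + 1) * q) := by
    rw [hκ]
    field_simp
  have h6 : 0 < v * (1 - 2 ^ (m + 1) * q) := mul_pos hv (by linarith)
  have h7 : (2 : ℝ) ^ (m + 2) = 2 * 2 ^ (m + 1) := by ring
  have h8 : (2 : ℝ) ^ (m + 1) = 2 * 2 ^ m := by ring
  rw [h7, h8] at h5
  rw [h8] at h6
  rw [hρ] at h2
  linarith

end Pool.Agent.Helper81.Gap
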