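import Pool.Agent.Helper81.Gap.Shift
import Pool.Agent.Helper81.Gap.Cube

/-!
The explicit bounds, final form.
-/

set_option autoImplicit false

open Finset Filter Topology

namespace Pool.Agent.Helper81.Gap

open Pool.Agent.TH112.BL (Bd)
open Pool.Agent.H376R2.MR (lam)
open Pool.Agent.Y958.TC (NM ind Bd_ind ind_nonneg m_shift Av)
open Pool.Agent.Y958.U

/-- from almost all scales to logarithmic averages -/
lemma log_scales (F : ℕ → ℝ) (hF : ∀ n, |F n| ≤ 1) (θ : ℝ) (hθ : 0 ≤ θ) (δ : ℝ) (hδ : 0 < δ) (E : Set ℕ)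
    (hE : LZ E) (N₀ : ℕ) (h : ∀ N : ℕ, N₀ ≤ N → N ∉ E → |∑ n ∈ Icc 1 N, F n| ≤ θ * N) :
    ∃ X₀ : ℕ, ∀ X : ℕ, X₀ ≤ X → |∑ n ∈ Icc 1 X, F n / n| ≤ (θ + δ) * Real.log X := by
  classical
  have hE1 : LZ (E ∪ {n | n < N₀}) := LZ_union hE (LZ_bdd _ N₀ fun n hn => hn)
  obtain ⟨X₁, hX₁⟩ := (LZ_iff _).1 hE1 (δ / 2) (by positivity)
  have hlog : Tendsto (fun X : ℕ => Real.log X) atTop atTop :=
    Real.tendsto_log_atTop.comp tendsto_natCast_atTop_atTop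
  obtain ⟨X₂, hX₂⟩ := eventually_atTop.1 (hlog.eventually_ge_atTop (2 * (θ + 1) / δ))
  refine ⟨X₁ + X₂ + 2, fun X hX => ?_⟩
  have h1 := hX₁ X (by omega)
  have h2 := hX₂ X (by omega)
  have hS : ∀ N : ℕ, |∑ n ∈ Icc 1 N, F n| ≤ N := by
    intro N
    refine (abs_sum_le_sum_abs _ _).trans ((sum_le_sum fun k _ => hF _).trans (le_of_eq ?_))
    simp
  rw [abel_log]
  have h3 : |(∑ n ∈ Icc 1 X, F n) / ((X : ℝ) + 1)| ≤ 1 := by
    rw [abs_div, abs_of_pos (by positivity : (0 : ℝ) < (X : ℝ) + 1), div_le_one (by positivity)]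
    have := hS X
    linarith
  have h4 : |∑ N ∈ Icc 1 X, (∑ n ∈ Icc 1 N, F n) * (1 / ((N : ℝ) * (N + 1)))| ≤
      θ * (1 + Real.log X) + ls (E ∪ {n | n < N₀}) X := by
    refine (abs_sum_le_sum_abs _ _).trans ?_
    have h5 : ∀ N ∈ Icc 1 X, |(∑ n ∈ Icc 1 N, F n) * (1 / ((N : ℝ) * (N + 1)))| ≤
        θ * (1 / (N : ℝ)) + li (E ∪ {n | n < N₀}) N := by
      intro N hN
      rw [mem_Icc] at hN
      have hN0 : (0 : ℝ) < N := by exact_mod_cast (by omega : 0 < N)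
      have e1 : (0 : ℝ) < 1 / ((N : ℝ) * (N + 1)) := by positivity
      rw [abs_mul, abs_of_pos e1]
      have e2 : (N : ℝ) * (1 / ((N : ℝ) * (N + 1))) ≤ 1 / N := by
        rw [mul_one_div, div_le_div_iff₀ (by positivity) hN0]
        nlinarith
      by_cases hNE : N ∈ E ∪ {n | n < N₀}
      · rw [li_mem hNE]
        have : |∑ n ∈ Icc 1 N, F n| * (1 / ((N : ℝ) * (N + 1))) ≤ N * (1 / ((N : ℝ) * (N + 1))) :=
          mul_le_mul_of_nonneg_right (hS N) e1.le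
        have h6 : 0 ≤ θ * (1 / (N : ℝ)) := mul_nonneg hθ (by positivity)
        linarith
      · rw [li_not hNE, add_zero]
        have h6 : N ∉ E := fun hh => hNE (Or.inl hh)
        have h7 : N₀ ≤ N := by
          by_contra hcc
          exact hNE (Or.inr (not_le.1 hcc))
        calc |∑ n ∈ Icc 1 N, F n| * (1 / ((N : ℝ) * (N + 1))) ≤ θ * N * (1 / ((N : ℝ) * (N + 1))) :=
              mul_le_mul_of_nonneg_right (h N h7 h6) e1.le
          _ = θ * (N * (1 / ((N : ℝ) * (N + 1)))) := by ring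
          _ ≤ θ * (1 / N) := mul_le_mul_of_nonneg_left e2 hθ
    refine (sum_le_sum h5).trans ?_
    rw [sum_add_distrib, ← mul_sum, ls_eq]
    apply add_le_add _ le_rfl
    apply mul_le_mul_of_nonneg_left _ hθ
    have h8 := harmonic_le_one_add_log X
    have h9 : ∑ i ∈ Icc 1 X, (1 : ℝ) / i = ((harmonic X : ℚ) : ℝ) := by
      rw [harmonic_eq_sum_Icc]
      push_cast
      apply sum_congr rfl
      intro i _
      rw [one_div]
    rw [h9]
    exact h8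
  have h10 := abs_add_le (∑ N ∈ Icc 1 X, (∑ n ∈ Icc 1 N, F n) * (1 / ((N : ℝ) * (N + 1))))
    ((∑ n ∈ Icc 1 X, F n) / ((X : ℝ) + 1))
  rw [div_le_iff₀ hδ] at h2
  nlinarith

/-- shifts -/
lemma shift_Icc (k : ℕ) (hk : 1 ≤ k) (h : Fin k → ℕ) (hh : Function.Injective h) (ε : ℝ) (hε : 0 < ε) :
    LZ {N | (1 - 2 / (2 * (k : ℝ) ^ 2 - k + 3) + ε) * N < |∑ n ∈ Icc 1 N, FF (fun _ => 1) h n|} := by
  have hk1 : (1 : ℝ) ≤ k := by exact_mod_cast hk
  set Q : ℝ := 2 * (k : ℝ) ^ 2 - k + 3 with hQ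
  have hQ4 : 4 ≤ Q := by rw [hQ]; nlinarith
  have hQ0 : 0 < Q := by linarith
  set δ : ℝ := min ε (1 / Q) with hδ
  have hδ0 : 0 < δ := by rw [hδ]; positivity
  have hδ1 : δ ≤ ε := min_le_left _ _
  have hδ2 : δ ≤ 1 / Q := min_le_right _ _
  set q : ℝ := 1 / Q - δ / 4 with hq
  have hq0 : 0 ≤ q := by rw [hq]; linarith
  have h1 := shift_LZ k hk h hh q hq0 (by
    have : Q * q = 1 - Q * δ / 4 := by rw [hq]; field_simp
    rw [← hQ, this]
    have : 0 < Q * δ := mul_pos hQ0 hδ0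
    linarith)
  refine LZ_sub ?_ (LZ_union h1 (LZ_bdd {N | N < ⌈4 / δ⌉₊} _ fun n hn => hn))
  intro N hN
  by_cases hNK : N < ⌈4 / δ⌉₊
  · exact Or.inr hNK
  left
  rw [Set.mem_setOf_eq] at hN ⊢
  have hNr : 4 / δ ≤ N := (Nat.le_ceil _).trans (Nat.cast_le.2 (not_lt.1 hNK))
  have hN0 : (0 : ℝ) < N := lt_of_lt_of_le (by positivity) hNr
  rw [div_le_iff₀ hδ0] at hNr
  unfold Pool.Agent.Y958.TC.Av
  rw [abs_div, abs_of_pos hN0, lt_div_iff₀ hN0]
  have hF : ∀ n, FF (fun _ => 1) h n = ∏ i, (lam (n + h i) : ℝ) := by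
    intro n
    unfold FF
    apply prod_congr rfl
    intro i _
    rw [lam_real, one_mul]
  have e1 : ∑ n ∈ range N, ∏ i, (lam (n + h i) : ℝ) =
      ∑ n ∈ Icc 1 N, FF (fun _ => 1) h n + FF (fun _ => 1) h 0 - FF (fun _ => 1) h N := by
    simp only [← hF]
    have h2 := sum_range_succ (FF (fun _ => 1) h) N
    have h3 := sum_range_succ' (FF (fun _ => 1) h) N
    rw [sum_range_Icc] at h3
    linarith
  rw [e1]
  have h2 := abs_le.1 (FF_le (fun _ => 1) h 0)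
  have h3 := abs_le.1 (FF_le (fun _ => 1) h N)
  have h4 : |∑ n ∈ Icc 1 N, FF (fun _ => 1) h n| ≤
      |∑ n ∈ Icc 1 N, FF (fun _ => 1) h n + FF (fun _ => 1) h 0 - FF (fun _ => 1) h N| + 2 := by
    rw [abs_le]
    have h5 := le_abs_self (∑ n ∈ Icc 1 N, FF (fun _ => 1) h n + FF (fun _ => 1) h 0 - FF (fun _ => 1) h N)
    have h6 := neg_abs_le (∑ n ∈ Icc 1 N, FF (fun _ => 1) h n + FF (fun _ => 1) h 0 - FF (fun _ => 1) h N)
    constructor <;> linarith [h2.1, h2.2, h3.1, h3.2]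
  have e2 : 1 - 2 * q = 1 - 2 / Q + δ / 2 := by rw [hq]; ring
  rw [e2]
  nlinarith

/-- linear forms -/
lemma forms_Icc (m : ℕ) (hm : 1 ≤ m) (a b : Fin (m + 1) → ℕ) (ha : ∀ i, 1 ≤ a i)
    (hab : ∀ i j, i ≠ j → a i * b j ≠ a j * b i) (ε : ℝ) (hε : 0 < ε) :
    LZ {N | (1 - 2 / 2 ^ (m + 1) + ε) * N < |∑ n ∈ Icc 1 N, FF a b n|} := by
  classical
  set Q : ℝ := 2 ^ (m + 1) with hQ
  have hQ0 : 0 < Q := by rw [hQ]; positivity
  have hQ1 : 1 ≤ Q := by rw [hQ]; exact one_le_pow₀ (by norm_num)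
  set δ : ℝ := min ε (1 / Q) with hδ
  have hδ0 : 0 < δ := by rw [hδ]; positivity
  have hδ1 : δ ≤ ε := min_le_left _ _
  have hδ2 : δ ≤ 1 / Q := min_le_right _ _
  set q : ℝ := 1 / Q - δ / 4 with hq
  have hq0 : 0 ≤ q := by rw [hq]; linarith
  have hqQ : Q * q < 1 := by
    have : Q * q = 1 - Q * δ / 4 := by rw [hq]; field_simp
    rw [this]
    have : 0 < Q * δ := mul_pos hQ0 hδ0
    linarith
  set A : ℕ := ∏ i, a i with hAd
  have hA : 1 ≤ A := Nat.one_le_iff_ne_zero.2 (prod_ne_zero_iff.2 fun i _ => by have := ha i; omega)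
  have hA0 : (0 : ℝ) < A := by exact_mod_cast hA
  set B : Fin (m + 1) → ℕ := fun i => ∏ j ∈ univ.erase i, a j with hB
  have hBA : ∀ i, a i * B i = A := by
    intro i
    rw [hB, hAd]
    exact mul_prod_erase univ a (mem_univ i)
  have hB0 : ∀ i, B i ≠ 0 := fun i h => by
    have := hBA i
    rw [h, mul_zero] at this
    omega
  set x : Fin (m + 1) → ℕ := fun i => B i * b i with hx
  have hxi : Function.Injective x := by
    intro i j hij
    by_contra hne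
    apply hab i j hne
    simp only [hx] at hij
    have h1 : A * (a i * b j) = A * (a j * b i) := by
      calc A * (a i * b j) = a i * (a j * (B j * b j)) := by rw [← hBA j]; ring
        _ = a i * (a j * (B i * b i)) := by rw [hij]
        _ = A * (a j * b i) := by rw [← hBA i]; ring
    exact Nat.eq_of_mul_eq_mul_left (by omega) h1
  have hV : ∀ n, A ∣ n + A ↔ A ∣ n := fun n => by
    rw [Nat.dvd_add_left (dvd_refl A)]
  have h1 := cube_LZ m hm x hxi (fun m => A ∣ m) A hA hV (by rw [dv_mult A hA]; positivity) q hqQ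
  rw [dv_mult A hA] at h1
  set E : Set ℕ := {N | (1 - 2 * q) * (1 / (A : ℝ)) <
    |Av N (fun n => ind (fun m => A ∣ m) n * ∏ i, ((lam (n + x i) : ℤ) : ℝ))|} with hE
  have h2 := LZ_union (LZ_pull E A hA h1) (LZ_bdd {N | N < ⌈4 / δ⌉₊} _ fun n hn => hn)
  refine LZ_sub ?_ h2
  intro N hN
  by_cases hNK : N < ⌈4 / δ⌉₊
  · exact Or.inr hNK
  left
  rw [Set.mem_setOf_eq] at hN ⊢
  rw [hE, Set.mem_setOf_eq]
  have hNr : 4 / δ ≤ N := (Nat.le_ceil _).trans (Nat.cast_le.2 (not_lt.1 hNK))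
  rw [div_le_iff₀ hδ0] at hNr
  have hlam1 : ∀ n, ((lam n : ℤ) : ℝ) * ((lam n : ℤ) : ℝ) = 1 := by
    intro n
    rw [lam_real, ← mul_pow]
    norm_num
  have hFF : ∀ n ∈ Icc 1 N, FF a b n = (∏ i, ((lam (B i) : ℤ) : ℝ)) * ∏ i, ((lam (A * n + x i) : ℤ) : ℝ) := by
    intro n hn
    rw [mem_Icc] at hn
    unfold FF
    rw [← prod_mul_distrib]
    apply prod_congr rfl
    intro i _
    have e1 : A * n + x i = B i * (a i * n + b i) := by
      simp only [hx]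
      rw [← hBA i]
      ring
    have e2 : a i * n + b i ≠ 0 := by
      have : 1 ≤ a i * n := Nat.one_le_iff_ne_zero.2 (Nat.mul_ne_zero (by have := ha i; omega) (by omega))
      omega
    rw [e1, lam_real (B i * _), ArithmeticFunction.cardFactors_mul (hB0 i) e2, pow_add, ← lam_real (B i),
      ← mul_assoc, hlam1, one_mul]
  have hsum : ∑ n ∈ Icc 1 N, FF a b n =
      (∏ i, ((lam (B i) : ℤ) : ℝ)) * ∑ n ∈ Icc 1 N, ∏ i, ((lam (A * n + x i) : ℤ) : ℝ) := by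
    rw [mul_sum]
    exact sum_congr rfl hFF
  have hB1 : |∏ i, ((lam (B i) : ℤ) : ℝ)| = 1 := by
    rw [abs_prod]
    apply prod_eq_one
    intro i _
    rw [lam_real, abs_pow, abs_neg, abs_one, one_pow]
  rw [hsum, abs_mul, hB1, one_mul] at hN
  have hAv : Av (A * (N + 1)) (fun n => ind (fun m => A ∣ m) n * ∏ i, ((lam (n + x i) : ℤ) : ℝ)) =
      (∏ i, ((lam (A * 0 + x i) : ℤ) : ℝ) + ∑ n ∈ Icc 1 N, ∏ i, ((lam (A * n + x i) : ℤ) : ℝ)) /
        (A * ((N : ℝ) + 1)) := by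
    unfold Pool.Agent.Y958.TC.Av
    rw [sum_mult A (N + 1) hA]
    congr 1
    · rw [sum_range_succ', add_comm]
      congr 1
      exact sum_range_Icc (fun n => ∏ i, ((lam (A * n + x i) : ℤ) : ℝ)) N
    · push_cast
      ring
  rw [hAv, abs_div, abs_of_pos (by positivity : (0 : ℝ) < A * ((N : ℝ) + 1)), lt_div_iff₀ (by positivity)]
  have h0 : |∏ i, ((lam (A * 0 + x i) : ℤ) : ℝ)| ≤ 1 := by
    rw [abs_prod]
    apply le_of_eq
    apply prod_eq_one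
    intro i _
    rw [lam_real, abs_pow, abs_neg, abs_one, one_pow]
  have h3 : |∑ n ∈ Icc 1 N, ∏ i, ((lam (A * n + x i) : ℤ) : ℝ)| - 1 ≤
      |∏ i, ((lam (A * 0 + x i) : ℤ) : ℝ) + ∑ n ∈ Icc 1 N, ∏ i, ((lam (A * n + x i) : ℤ) : ℝ)| := by
    have h4 := abs_sub_abs_le_abs_sub (∑ n ∈ Icc 1 N, ∏ i, ((lam (A * n + x i) : ℤ) : ℝ))
      (-(∏ i, ((lam (A * 0 + x i) : ℤ) : ℝ)))
    rw [abs_neg, sub_neg_eq_add, add_comm (∑ n ∈ Icc 1 N, _)] at h4
    linarith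
  have e5 : (1 - 2 * q) * (1 / (A : ℝ)) * (A * ((N : ℝ) + 1)) = (1 - 2 * q) * (N + 1) := by
    field_simp
  rw [e5]
  have e6 : 1 - 2 * q = 1 - 2 / Q + δ / 2 := by rw [hq]; ring
  have e7 : 1 - 2 * q ≤ 1 := by linarith
  nlinarith

/-- index of the final exceptional set -/
abbrev Idx := Σ k : ℕ, (Fin k → ℕ) × (Fin k → ℕ) × ℕ × Bool

/-- the constants -/
noncomputable def thr (k : ℕ) (s : Bool) : ℝ :=
  if s then 1 - 2 / (2 * (k : ℝ) ^ 2 - k + 3) else 1 - 2 / 2 ^ k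

/-- the conditions -/
def cnd (k : ℕ) (a b : Fin k → ℕ) (s : Bool) : Prop :=
  2 ≤ k ∧ if s then (a = fun _ => 1) ∧ Function.Injective b else
    (∀ i, 1 ≤ a i) ∧ ∀ i j, i ≠ j → a i * b j ≠ a j * b i

lemma cnd_LZ (k : ℕ) (a b : Fin k → ℕ) (s : Bool) (h : cnd k a b s) (ε : ℝ) (hε : 0 < ε) :
    LZ {N | (thr k s + ε) * N < |∑ n ∈ Icc 1 N, FF a b n|} := by
  obtain ⟨hk, h⟩ := h
  cases s with
  | true =>
    simp only [if_true] at h
    obtain ⟨rfl, hb⟩ := h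
    simp only [thr, if_true]
    exact shift_Icc k (by omega) b hb ε hε
  | false =>
    obtain ⟨m, rfl⟩ : ∃ m, k = m + 1 := ⟨k - 1, by omega⟩
    simp only [Bool.false_eq_true, if_false] at h
    simp only [thr, Bool.false_eq_true, if_false]
    exact forms_Icc m (by omega) a b h.1 h.2 ε hε

lemma thr_nonneg (k : ℕ) (hk : 2 ≤ k) (s : Bool) : 0 ≤ thr k s := by
  have hk1 : (2 : ℝ) ≤ k := by exact_mod_cast hk
  cases s with
  | true =>
    simp only [thr, if_true]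
    have : 2 / (2 * (k : ℝ) ^ 2 - k + 3) ≤ 1 := by
      rw [div_le_one (by nlinarith)]
      nlinarith
    linarith
  | false =>
    simp only [thr, Bool.false_eq_true, if_false]
    have h1 : (2 : ℝ) ≤ 2 ^ k := by
      calc (2 : ℝ) = 2 ^ 1 := by norm_num
        _ ≤ 2 ^ k := pow_le_pow_right₀ (by norm_num) (by omega)
    have : (2 : ℝ) / 2 ^ k ≤ 1 := by
      rw [div_le_one (by positivity)]
      exact h1
    linarith

/-- **the final statement** -/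
theorem final : ∃ E : Set ℕ, LZ E ∧ ∀ (k : ℕ) (a b : Fin k → ℕ) (s : Bool), cnd k a b s →
    ∀ ε : ℝ, 0 < ε →
      (∃ N₀ : ℕ, ∀ N : ℕ, N₀ ≤ N → N ∉ E → |∑ n ∈ Icc 1 N, FF a b n| ≤ (thr k s + ε) * N) ∧
      ∃ N₀ : ℕ, ∀ N : ℕ, N₀ ≤ N → |∑ n ∈ Icc 1 N, FF a b n / n| ≤ (thr k s + ε) * Real.log N := by
  classical
  set E : Idx → Set ℕ := fun t => {N | cnd t.1 t.2.1 t.2.2.1 t.2.2.2.2 ∧
    (thr t.1 t.2.2.2.2 + 1 / ((t.2.2.2.1 : ℝ) + 1)) * N < |∑ n ∈ Icc 1 N, FF t.2.1 t.2.2.1 n|} with hE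
  have hEZ : ∀ t, LZ (E t) := by
    intro t
    by_cases ht : cnd t.1 t.2.1 t.2.2.1 t.2.2.2.2
    · refine LZ_sub ?_ (cnd_LZ _ _ _ _ ht (1 / ((t.2.2.2.1 : ℝ) + 1)) (by positivity))
      rintro N ⟨-, hN⟩
      exact hN
    · refine LZ_sub ?_ LZ_empty
      rintro N ⟨h, -⟩
      exact absurd h ht
  haveI : Nonempty Idx := ⟨⟨0, Fin.elim0, Fin.elim0, 0, true⟩⟩
  obtain ⟨F, hF, hdiag⟩ := diag' E hEZ
  have hmain : ∀ (k : ℕ) (a b : Fin k → ℕ) (s : Bool), cnd k a b s → ∀ ε : ℝ, 0 < ε →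
      ∃ N₀ : ℕ, ∀ N : ℕ, N₀ ≤ N → N ∉ F → |∑ n ∈ Icc 1 N, FF a b n| ≤ (thr k s + ε) * N := by
    intro k a b s hc ε hε
    obtain ⟨j, hj⟩ := exists_nat_one_div_lt hε
    obtain ⟨N₀, hN₀⟩ := hdiag ⟨k, a, b, j, s⟩
    refine ⟨N₀, fun N hN hNF => ?_⟩
    by_contra hcon
    apply hNF
    refine hN₀ N ⟨hc, ?_⟩ hN
    refine lt_of_le_of_lt ?_ (not_le.1 hcon)
    apply mul_le_mul_of_nonneg_right _ (Nat.cast_nonneg _)
    simp only
    linarith
  refine ⟨F, hF, fun k a b s hc ε hε => ⟨hmain k a b s hc ε hε, ?_⟩⟩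
  obtain ⟨N₀, hN₀⟩ := hmain k a b s hc (ε / 2) (by positivity)
  have h0 := thr_nonneg k hc.1 s
  obtain ⟨X₀, hX₀⟩ := log_scales (FF a b) (FF_le a b) (thr k s + ε / 2) (by positivity) (ε / 2) (by positivity)
    F hF N₀ hN₀
  refine ⟨X₀, fun X hX => ?_⟩
  have := hX₀ X hX
  have e : thr k s + ε / 2 + ε / 2 = thr k s + ε := by ring
  rwa [e] at this

end Pool.Agent.Helper81.Gap
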