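import Pool.Agent.Helper81.Gap.Vote

/-!
The deterministic inequality.
-/

set_option autoImplicit false

open Finset

namespace Pool.Agent.Helper81.Gap

section det

variable {k : ℕ} (x a : Fin k → ℤ) (i1 : Fin k) (Y : ℤ → ℤ → ℤ) (σ : ℤ) (K₁ K₂ : ℕ)

/-- wrong lines in the grids through the points of column `i` -/
noncomputable def TT (i : Fin k) : ℝ :=
  2 * ∑ b ∈ univ.erase i1, ∑ e ∈ SI K₁, ∑ e' ∈ SI K₁, ∑ δ ∈ SI K₂,
    Fl x a Y σ (x i - x i1 + x b) (e' * a b) (e + δ * a b)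

/-- wrong lines in the grids over a line -/
noncomputable def RR (b : Fin k) : ℝ :=
  ∑ e' ∈ SI K₁, ∑ δ ∈ SI K₂, Fl x a Y σ (x b) (e' * a b) (δ * a b)

/-- the majority function -/
noncomputable def gg (i : Fin k) (y : ℤ) : ℤ := gm (SI K₁) (Vt x a i1 Y σ i y)

variable (ha1 : a i1 = 0) (hY : ∀ z y, Y z y = 1 ∨ Y z y = -1) (hσ : σ = 1 ∨ σ = -1)

include ha1 hY hσ in
/-- the minority is small -/
lemma minority (i : Fin k) (y : ℤ) (Z : ℝ)
    (hZ : ∀ b, b ≠ i1 → ∃ z : ℤ, y = z * a b ∧ |(z : ℝ)| ≤ Z) :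
    (2 * (K₁ : ℝ) + 1) * (2 * K₂ + 1) * mm (SI K₁) (Vt x a i1 Y σ i y) ≤
      TT x a i1 Y σ K₁ K₂ i + 2 * (k - 1 : ℕ) * (2 * K₁ + 1) * (2 * K₂ + 1) * Z := by
  classical
  set n₁ : ℝ := 2 * (K₁ : ℝ) + 1 with hn₁
  set n₂ : ℝ := 2 * (K₂ : ℝ) + 1 with hn₂
  have hn₁0 : 0 < n₁ := by positivity
  have hn₂0 : 0 < n₂ := by positivity
  have h1 := mm_le (SI K₁) (Vt x a i1 Y σ i y) (Vt_pm x a i1 Y σ hY hσ i y)
  rw [SI_card, ← hn₁] at h1
  have hFn := Fl_nonneg x a Y σ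
  have hFl := Fl_le x a Y σ
  -- sum over the grids
  have h2 : ∀ e e' : ℤ, n₂ * (if Vt x a i1 Y σ i y e ≠ Vt x a i1 Y σ i y e' then (1 : ℝ) else 0) ≤
      ∑ δ ∈ SI K₂, ∑ b ∈ univ.erase i1, (Fl x a Y σ (x i - x i1 + x b) (y + e' * a b) (e + δ * a b) +
        Fl x a Y σ (x i - x i1 + x b) (y + e * a b) (e' + δ * a b)) := by
    intro e e'
    rw [hn₂, ← SI_card, ← nsmul_eq_mul]
    apply card_nsmul_le_sum
    intro δ _
    by_cases h3 : ∀ b, b ≠ i1 → LP x a Y (x i - x i1 + x b) (y + e' * a b) (e + δ * a b) = σ ∧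
        LP x a Y (x i - x i1 + x b) (y + e * a b) (e' + δ * a b) = σ
    · rw [if_neg (not_not.2 (consist x a i1 Y σ ha1 hY i y e e' δ (fun b hb => (h3 b hb).1)
        (fun b hb => (h3 b hb).2)))]
      exact sum_nonneg fun b _ => add_nonneg (hFn _ _ _) (hFn _ _ _)
    · push Not at h3
      obtain ⟨b, hb, h4⟩ := h3
      have h5 : (1 : ℝ) ≤ Fl x a Y σ (x i - x i1 + x b) (y + e' * a b) (e + δ * a b) +
          Fl x a Y σ (x i - x i1 + x b) (y + e * a b) (e' + δ * a b) := by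
        by_cases h6 : LP x a Y (x i - x i1 + x b) (y + e' * a b) (e + δ * a b) = σ
        · have h7 := h4 h6
          have e1 : Fl x a Y σ (x i - x i1 + x b) (y + e * a b) (e' + δ * a b) = 1 := by
            unfold Fl; rw [if_neg h7]
          linarith [hFn (x i - x i1 + x b) (y + e' * a b) (e + δ * a b)]
        · have e1 : Fl x a Y σ (x i - x i1 + x b) (y + e' * a b) (e + δ * a b) = 1 := by
            unfold Fl; rw [if_neg h6]
          linarith [hFn (x i - x i1 + x b) (y + e * a b) (e' + δ * a b)]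
      refine le_trans ?_ (single_le_sum (f := fun b =>
        Fl x a Y σ (x i - x i1 + x b) (y + e' * a b) (e + δ * a b) +
          Fl x a Y σ (x i - x i1 + x b) (y + e * a b) (e' + δ * a b))
        (fun b _ => add_nonneg (hFn _ _ _) (hFn _ _ _)) (mem_erase.2 ⟨hb, mem_univ b⟩))
      refine le_trans ?_ h5
      split_ifs <;> norm_num
  have h3 : n₂ * ∑ e ∈ SI K₁, ∑ e' ∈ SI K₁,
      (if Vt x a i1 Y σ i y e ≠ Vt x a i1 Y σ i y e' then (1 : ℝ) else 0) ≤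
      2 * ∑ b ∈ univ.erase i1, ∑ e ∈ SI K₁, ∑ e' ∈ SI K₁, ∑ δ ∈ SI K₂,
        Fl x a Y σ (x i - x i1 + x b) (y + e' * a b) (e + δ * a b) := by
    have e0 : n₂ * ∑ e ∈ SI K₁, ∑ e' ∈ SI K₁,
        (if Vt x a i1 Y σ i y e ≠ Vt x a i1 Y σ i y e' then (1 : ℝ) else 0) =
        ∑ e ∈ SI K₁, ∑ e' ∈ SI K₁,
        n₂ * (if Vt x a i1 Y σ i y e ≠ Vt x a i1 Y σ i y e' then (1 : ℝ) else 0) := by
      rw [mul_sum]
      apply sum_congr rfl
      intro e _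
      rw [mul_sum]
    rw [e0]
    refine (sum_le_sum fun e _ => sum_le_sum fun e' _ => h2 e e').trans (le_of_eq ?_)
    simp only [sum_add_distrib]
    have e1 : ∑ e ∈ SI K₁, ∑ e' ∈ SI K₁, ∑ δ ∈ SI K₂, ∑ b ∈ univ.erase i1,
        Fl x a Y σ (x i - x i1 + x b) (y + e * a b) (e' + δ * a b) =
        ∑ e ∈ SI K₁, ∑ e' ∈ SI K₁, ∑ δ ∈ SI K₂, ∑ b ∈ univ.erase i1,
          Fl x a Y σ (x i - x i1 + x b) (y + e' * a b) (e + δ * a b) := sum_comm
    rw [e1, ← two_mul]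
    have e2 : ∑ b ∈ univ.erase i1, ∑ e ∈ SI K₁, ∑ e' ∈ SI K₁, ∑ δ ∈ SI K₂,
        Fl x a Y σ (x i - x i1 + x b) (y + e' * a b) (e + δ * a b) =
        ∑ e ∈ SI K₁, ∑ e' ∈ SI K₁, ∑ δ ∈ SI K₂, ∑ b ∈ univ.erase i1,
          Fl x a Y σ (x i - x i1 + x b) (y + e' * a b) (e + δ * a b) := by
      rw [sum_comm]
      apply sum_congr rfl
      intro e _
      rw [sum_comm]
      apply sum_congr rfl
      intro e' _
      rw [sum_comm]
    rw [e2]
  have h4 : ∀ b ∈ univ.erase i1, ∑ e ∈ SI K₁, ∑ e' ∈ SI K₁, ∑ δ ∈ SI K₂,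
        Fl x a Y σ (x i - x i1 + x b) (y + e' * a b) (e + δ * a b) ≤
      ∑ e ∈ SI K₁, ∑ e' ∈ SI K₁, ∑ δ ∈ SI K₂,
        Fl x a Y σ (x i - x i1 + x b) (e' * a b) (e + δ * a b) + n₁ * n₂ * Z := by
    intro b hb
    rw [mem_erase] at hb
    obtain ⟨z, hz, hzZ⟩ := hZ b hb.1
    have h5 : ∀ e : ℤ, ∑ e' ∈ SI K₁, ∑ δ ∈ SI K₂,
        Fl x a Y σ (x i - x i1 + x b) (y + e' * a b) (e + δ * a b) ≤
        ∑ e' ∈ SI K₁, ∑ δ ∈ SI K₂,
          Fl x a Y σ (x i - x i1 + x b) (e' * a b) (e + δ * a b) + n₂ * Z := by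
      intro e
      rw [sum_comm, sum_comm (s := SI K₁) (t := SI K₂)
        (f := fun e' δ => Fl x a Y σ (x i - x i1 + x b) (e' * a b) (e + δ * a b))]
      have h6 : ∀ δ ∈ SI K₂, ∑ e' ∈ SI K₁, Fl x a Y σ (x i - x i1 + x b) (y + e' * a b) (e + δ * a b) ≤
          ∑ e' ∈ SI K₁, Fl x a Y σ (x i - x i1 + x b) (e' * a b) (e + δ * a b) + Z := by
        intro δ _
        have h7 := sum_shift K₁ z (fun e' => Fl x a Y σ (x i - x i1 + x b) (e' * a b) (e + δ * a b))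
          (fun _ => hFn _ _ _) (fun _ => hFl _ _ _)
        have e3 : ∀ e' : ℤ, y + e' * a b = (e' + z) * a b := by
          intro e'; rw [hz]; ring
        simp only [e3]
        linarith
      refine (sum_le_sum h6).trans (le_of_eq ?_)
      rw [sum_add_distrib, sum_const, nsmul_eq_mul, SI_card]
    refine (sum_le_sum fun e _ => h5 e).trans (le_of_eq ?_)
    rw [sum_add_distrib, sum_const, nsmul_eq_mul, SI_card]
    ring
  have h5 := sum_le_sum h4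
  rw [sum_add_distrib, sum_const, nsmul_eq_mul, card_erase_of_mem (mem_univ _), card_univ,
    Fintype.card_fin] at h5
  unfold TT
  calc n₁ * n₂ * (mm (SI K₁) (Vt x a i1 Y σ i y) : ℝ) =
        n₂ * (n₁ * mm (SI K₁) (Vt x a i1 Y σ i y)) := by ring
    _ ≤ n₂ * ∑ e ∈ SI K₁, ∑ e' ∈ SI K₁,
      (if Vt x a i1 Y σ i y e ≠ Vt x a i1 Y σ i y e' then (1 : ℝ) else 0) :=
        mul_le_mul_of_nonneg_left h1 hn₂0.le
    _ ≤ _ := h3
    _ ≤ _ := by linarith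

include hσ in
/-- exactness along a line -/
lemma exact_of (v c : ℤ) (Z H : ℝ) (hH : ∀ i, |(a i : ℝ)| ≤ H)
    (hv : ∀ b, b ≠ i1 → ∃ z : ℤ, v = z * a b ∧ |(z : ℝ)| ≤ Z)
    (hc : ∀ b, b ≠ i1 → ∃ z : ℤ, c = z * a b ∧ |(z : ℝ)| ≤ Z)
    (h : ∑ i, (2 * (K₂ : ℝ) + 1) * (mm (SI K₁) (Vt x a i1 Y σ i (v + c * a i)) + K₂ * H) +
      ∑ b ∈ univ.erase i1, (RR x a Y σ K₁ K₂ b + (2 * (K₂ : ℝ) + 1) * Z + (2 * (K₁ : ℝ) + 1) * Z) <
      (2 * (K₁ : ℝ) + 1) * (2 * K₂ + 1)) :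
    ∏ i, gg x a i1 Y σ K₁ i (v + c * a i) = σ := by
  classical
  set n₁ : ℝ := 2 * (K₁ : ℝ) + 1 with hn₁
  set n₂ : ℝ := 2 * (K₂ : ℝ) + 1 with hn₂
  have hFn := Fl_nonneg x a Y σ
  have hFl := Fl_le x a Y σ
  by_contra hcon
  -- every pair is bad
  have h1 : ∀ e' δ : ℤ, (1 : ℝ) ≤
      ∑ i, (if Vt x a i1 Y σ i (v + c * a i) (e' + δ * a i) ≠ gg x a i1 Y σ K₁ i (v + c * a i)
        then (1 : ℝ) else 0) +
      ∑ b ∈ univ.erase i1, Fl x a Y σ (x b) (v + e' * a b) (c + δ * a b) := by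
    intro e' δ
    have hn1 : ∀ i ∈ (univ : Finset (Fin k)), (0 : ℝ) ≤
        (if Vt x a i1 Y σ i (v + c * a i) (e' + δ * a i) ≠ gg x a i1 Y σ K₁ i (v + c * a i)
        then (1 : ℝ) else 0) := fun i _ => by split_ifs <;> norm_num
    by_cases h2 : ∀ b, b ≠ i1 → LP x a Y (x b) (v + e' * a b) (c + δ * a b) = σ
    · by_cases h3 : ∀ i, Vt x a i1 Y σ i (v + c * a i) (e' + δ * a i) = gg x a i1 Y σ K₁ i (v + c * a i)
      · exfalso
        apply hcon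
        exact (prod_congr rfl fun i _ => (h3 i).symm).trans (exact_line x a i1 Y σ hσ v c e' δ h2)
      · push Not at h3
        obtain ⟨i, hi⟩ := h3
        have h4 := single_le_sum hn1 (mem_univ i)
        rw [if_pos hi] at h4
        have h5 : (0 : ℝ) ≤ ∑ b ∈ univ.erase i1, Fl x a Y σ (x b) (v + e' * a b) (c + δ * a b) :=
          sum_nonneg fun _ _ => hFn _ _ _
        linarith
    · push Not at h2
      obtain ⟨b, hb, h3⟩ := h2
      have h4 := single_le_sum (f := fun b => Fl x a Y σ (x b) (v + e' * a b) (c + δ * a b))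
        (fun _ _ => hFn _ _ _) (mem_erase.2 ⟨hb, mem_univ b⟩)
      have h5 : Fl x a Y σ (x b) (v + e' * a b) (c + δ * a b) = 1 := by
        unfold Fl; rw [if_neg h3]
      simp only [h5] at h4
      have h6 := sum_nonneg hn1
      linarith
  have h2 : n₁ * n₂ ≤ ∑ e' ∈ SI K₁, ∑ δ ∈ SI K₂,
      (∑ i, (if Vt x a i1 Y σ i (v + c * a i) (e' + δ * a i) ≠ gg x a i1 Y σ K₁ i (v + c * a i)
        then (1 : ℝ) else 0) +
      ∑ b ∈ univ.erase i1, Fl x a Y σ (x b) (v + e' * a b) (c + δ * a b)) := by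
    have h3 : ∀ e' ∈ SI K₁, n₂ ≤ ∑ δ ∈ SI K₂,
        (∑ i, (if Vt x a i1 Y σ i (v + c * a i) (e' + δ * a i) ≠ gg x a i1 Y σ K₁ i (v + c * a i)
          then (1 : ℝ) else 0) +
        ∑ b ∈ univ.erase i1, Fl x a Y σ (x b) (v + e' * a b) (c + δ * a b)) := by
      intro e' _
      have h4 := card_nsmul_le_sum (SI K₂) _ _ (fun δ _ => h1 e' δ)
      rw [nsmul_eq_mul, SI_card, mul_one] at h4
      exact h4
    have h4 := card_nsmul_le_sum (SI K₁) _ _ h3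
    rw [nsmul_eq_mul, SI_card] at h4
    exact h4
  simp only [sum_add_distrib] at h2
  -- the votes
  have h3 : ∑ e' ∈ SI K₁, ∑ δ ∈ SI K₂, ∑ i,
      (if Vt x a i1 Y σ i (v + c * a i) (e' + δ * a i) ≠ gg x a i1 Y σ K₁ i (v + c * a i)
        then (1 : ℝ) else 0) ≤
      ∑ i, n₂ * (mm (SI K₁) (Vt x a i1 Y σ i (v + c * a i)) + K₂ * H) := by
    have e1 : ∑ e' ∈ SI K₁, ∑ δ ∈ SI K₂, ∑ i,
        (if Vt x a i1 Y σ i (v + c * a i) (e' + δ * a i) ≠ gg x a i1 Y σ K₁ i (v + c * a i)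
          then (1 : ℝ) else 0) =
        ∑ i, ∑ δ ∈ SI K₂, ∑ e' ∈ SI K₁,
        (if Vt x a i1 Y σ i (v + c * a i) (e' + δ * a i) ≠ gg x a i1 Y σ K₁ i (v + c * a i)
          then (1 : ℝ) else 0) := by
      rw [sum_comm]
      have : ∀ δ ∈ SI K₂, ∑ e' ∈ SI K₁, ∑ i,
          (if Vt x a i1 Y σ i (v + c * a i) (e' + δ * a i) ≠ gg x a i1 Y σ K₁ i (v + c * a i)
          then (1 : ℝ) else 0) = ∑ i, ∑ e' ∈ SI K₁,
          (if Vt x a i1 Y σ i (v + c * a i) (e' + δ * a i) ≠ gg x a i1 Y σ K₁ i (v + c * a i)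
          then (1 : ℝ) else 0) := fun δ _ => sum_comm
      rw [sum_congr rfl this, sum_comm]
    rw [e1]
    apply sum_le_sum
    intro i _
    have h4 : ∀ δ ∈ SI K₂, ∑ e' ∈ SI K₁,
        (if Vt x a i1 Y σ i (v + c * a i) (e' + δ * a i) ≠ gg x a i1 Y σ K₁ i (v + c * a i)
          then (1 : ℝ) else 0) ≤ mm (SI K₁) (Vt x a i1 Y σ i (v + c * a i)) + K₂ * H := by
      intro δ hδ
      have h5 := sum_shift K₁ (δ * a i) (fun e => if Vt x a i1 Y σ i (v + c * a i) e ≠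
        gg x a i1 Y σ K₁ i (v + c * a i) then (1 : ℝ) else 0) (fun e => by split_ifs <;> norm_num)
        (fun e => by split_ifs <;> norm_num)
      refine h5.trans (add_le_add (le_of_eq ?_) ?_)
      · rw [← sum_filter, sum_const, nsmul_eq_mul, mul_one]
        rfl
      · push_cast
        rw [abs_mul]
        unfold SI at hδ
        rw [mem_Icc] at hδ
        have h6 : |(δ : ℝ)| ≤ K₂ := by
          rw [abs_le]
          exact ⟨by exact_mod_cast hδ.1, by exact_mod_cast hδ.2⟩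
        exact mul_le_mul h6 (hH i) (abs_nonneg _) (Nat.cast_nonneg _)
    refine (sum_le_sum h4).trans (le_of_eq ?_)
    rw [sum_const, nsmul_eq_mul, SI_card]
  have h4 : ∑ e' ∈ SI K₁, ∑ δ ∈ SI K₂, ∑ b ∈ univ.erase i1,
      Fl x a Y σ (x b) (v + e' * a b) (c + δ * a b) ≤
      ∑ b ∈ univ.erase i1, (RR x a Y σ K₁ K₂ b + n₂ * Z + n₁ * Z) := by
    have e1 : ∑ e' ∈ SI K₁, ∑ δ ∈ SI K₂, ∑ b ∈ univ.erase i1,
        Fl x a Y σ (x b) (v + e' * a b) (c + δ * a b) =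
        ∑ b ∈ univ.erase i1, ∑ e' ∈ SI K₁, ∑ δ ∈ SI K₂,
          Fl x a Y σ (x b) (v + e' * a b) (c + δ * a b) := by
      have : ∀ e' ∈ SI K₁, ∑ δ ∈ SI K₂, ∑ b ∈ univ.erase i1,
        Fl x a Y σ (x b) (v + e' * a b) (c + δ * a b) = ∑ b ∈ univ.erase i1, ∑ δ ∈ SI K₂,
        Fl x a Y σ (x b) (v + e' * a b) (c + δ * a b) := fun e' _ => sum_comm
      rw [sum_congr rfl this, sum_comm]
    rw [e1]
    apply sum_le_sum
    intro b hb
    rw [mem_erase] at hb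
    obtain ⟨z, hz, hzZ⟩ := hv b hb.1
    obtain ⟨w, hw, hwZ⟩ := hc b hb.1
    unfold RR
    -- shift `δ`
    have h5 : ∀ e' : ℤ, ∑ δ ∈ SI K₂, Fl x a Y σ (x b) (v + e' * a b) (c + δ * a b) ≤
        ∑ δ ∈ SI K₂, Fl x a Y σ (x b) (v + e' * a b) (δ * a b) + Z := by
      intro e'
      have h7 := sum_shift K₂ w (fun δ => Fl x a Y σ (x b) (v + e' * a b) (δ * a b))
        (fun _ => hFn _ _ _) (fun _ => hFl _ _ _)
      have e3 : ∀ δ : ℤ, c + δ * a b = (δ + w) * a b := by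
        intro δ; rw [hw]; ring
      simp only [e3]
      linarith
    refine (sum_le_sum fun e' _ => h5 e').trans ?_
    rw [sum_add_distrib, sum_const, nsmul_eq_mul, SI_card]
    apply add_le_add _ le_rfl
    -- shift `e'`
    rw [sum_comm, sum_comm (s := SI K₁) (t := SI K₂) (f := fun e' δ => Fl x a Y σ (x b) (e' * a b) (δ * a b))]
    have h6 : ∀ δ ∈ SI K₂, ∑ e' ∈ SI K₁, Fl x a Y σ (x b) (v + e' * a b) (δ * a b) ≤
        ∑ e' ∈ SI K₁, Fl x a Y σ (x b) (e' * a b) (δ * a b) + Z := by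
      intro δ _
      have h7 := sum_shift K₁ z (fun e' => Fl x a Y σ (x b) (e' * a b) (δ * a b))
        (fun _ => hFn _ _ _) (fun _ => hFl _ _ _)
      have e3 : ∀ e' : ℤ, v + e' * a b = (e' + z) * a b := by
        intro e'; rw [hz]; ring
      simp only [e3]
      linarith
    refine (sum_le_sum h6).trans (le_of_eq ?_)
    rw [sum_add_distrib, sum_const, nsmul_eq_mul, SI_card]
  linarith

end det

end Pool.Agent.Helper81.Gap
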