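import Mathlib

/-!
Elimination: functions on `ℤ` with values `± 1` whose product along all lines is constant.
-/

set_option autoImplicit false

open Finset

namespace Pool.Agent.Helper81.Gap

/-- multiplicative difference -/
def Dop (s : ℤ) (g : ℤ → ℤ) : ℤ → ℤ := fun y => g y * g (y + s)

lemma Dop_sq (s : ℤ) (g : ℤ → ℤ) (hg : ∀ y, g y * g y = 1) (y : ℤ) : Dop s g y * Dop s g y = 1 := by
  unfold Dop
  calc g y * g (y + s) * (g y * g (y + s)) = (g y * g y) * (g (y + s) * g (y + s)) := by ring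
    _ = 1 := by rw [hg, hg, one_mul]

lemma Dop_Dop (s : ℤ) (g : ℤ → ℤ) (hg : ∀ y, g y * g y = 1) : Dop s (Dop s g) = Dop (2 * s) g := by
  funext y
  unfold Dop
  have h := hg (y + s)
  have e : y + s + s = y + 2 * s := by ring
  rw [e]
  calc g y * g (y + s) * (g (y + s) * g (y + 2 * s)) = g y * (g (y + s) * g (y + s)) * g (y + 2 * s) := by
        ring
    _ = g y * g (y + 2 * s) := by rw [h, mul_one]

lemma Dop_pow (s : ℤ) (κ : ℕ) : ∀ g : ℤ → ℤ, (∀ y, g y * g y = 1) →
    (Dop s)^[2 ^ κ] g = Dop (2 ^ κ * s) g := by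
  induction κ with
  | zero => intro g _; simp
  | succ κ ih =>
    intro g hg
    rw [pow_succ, mul_two, Function.iterate_add_apply, ih g hg, ih _ (Dop_sq _ g hg), Dop_Dop _ g hg]
    congr 1
    rw [pow_succ]
    ring

lemma Dop_iter_one (s : ℤ) (B : ℤ) (m : ℕ) : ∀ g : ℤ → ℤ,
    (∀ v : ℤ, |v| ≤ B + m * |s| → g v = 1) → ∀ v : ℤ, |v| ≤ B → ((Dop s)^[m] g) v = 1 := by
  induction m with
  | zero =>
    intro g h v hv
    rw [Function.iterate_zero, id]
    apply h
    simpa using hv
  | succ m ih =>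
    intro g h v hv
    rw [Function.iterate_succ_apply]
    apply ih _ _ v hv
    intro w hw
    unfold Dop
    have h1 : |w| ≤ B + ((m + 1 : ℕ) : ℤ) * |s| := by
      push_cast
      have := abs_nonneg s
      nlinarith
    have h2 : |w + s| ≤ B + ((m + 1 : ℕ) : ℤ) * |s| := by
      have h3 := abs_add_le w s
      push_cast
      linarith
    rw [h w h1, h (w + s) h2, one_mul]

theorem elim {k : ℕ} (a : Fin k → ℤ) (i1 : Fin k) (ha1 : a i1 = 0) (s W : ℤ) (hs : |s| ≤ W)
    (hdiv : ∀ b, b ≠ i1 → ∃ r : ℤ, r * a b = -s ∧ |r| ≤ W) (B : ℤ) (hB : 0 ≤ B) (t : ℕ) :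
    ∀ (S : Finset (Fin k)), i1 ∈ S → S.card = t + 1 → ∀ (G : Fin k → ℤ → ℤ)
      (_ : ∀ i y, G i y * G i y = 1) (τ : ℤ)
      (_ : ∀ v c : ℤ, |v| ≤ B + t * W → |c| ≤ B + t * W → ∏ i ∈ S, G i (v + c * a i) = τ),
      ∃ τ' : ℤ, ∀ v : ℤ, |v| ≤ B → ((Dop s)^[t] (G i1)) v = τ' := by
  induction t with
  | zero =>
    intro S hi hc G _ τ h
    obtain ⟨z, hz⟩ := card_eq_one.1 (by simpa using hc : S.card = 1)
    rw [hz, mem_singleton] at hi
    subst hi
    refine ⟨τ, fun v hv => ?_⟩
    have h1 := h v 0 (by simpa using hv) (by simpa using hB)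
    rw [hz, prod_singleton, zero_mul, add_zero] at h1
    simpa using h1
  | succ t ih =>
    intro S hi hc G hG τ h
    have hpos : 0 < (S.erase i1).card := by
      rw [card_erase_of_mem hi, hc]; omega
    obtain ⟨b, hb⟩ := card_pos.1 hpos
    rw [mem_erase] at hb
    obtain ⟨r, hr, hrW⟩ := hdiv b hb.1
    set G' : Fin k → ℤ → ℤ := fun i y => G i y * G i (y + r * (a i - a b)) with hG'
    have hG'sq : ∀ i y, G' i y * G' i y = 1 := by
      intro i y
      rw [hG']
      simp only
      calc G i y * G i (y + r * (a i - a b)) * (G i y * G i (y + r * (a i - a b))) =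
            (G i y * G i y) * (G i (y + r * (a i - a b)) * G i (y + r * (a i - a b))) := by ring
        _ = 1 := by rw [hG, hG, one_mul]
    have e1 : G' i1 = Dop s (G i1) := by
      funext y
      rw [hG']
      unfold Dop
      simp only
      rw [ha1, show y + r * (0 - a b) = y + s by linarith]
    obtain ⟨τ', hτ'⟩ := ih (S.erase b) (mem_erase.2 ⟨fun h => hb.1 h.symm, hi⟩)
      (by rw [card_erase_of_mem hb.2, hc]; rfl) G' hG'sq (τ * τ) (by
        intro v c hv hcc
        have hW : 0 ≤ W := (abs_nonneg s).trans hs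
        have h1 := h v c (by push_cast; nlinarith) (by push_cast; nlinarith)
        have h2 := h (v - r * a b) (c + r) (by
          have h3 := abs_add_le v s
          rw [show v - r * a b = v + s by linarith]
          push_cast
          linarith) (by
          have h3 := abs_add_le c r
          push_cast
          linarith)
        rw [← mul_prod_erase S _ hb.2] at h1 h2
        have e2 : v - r * a b + (c + r) * a b = v + c * a b := by ring
        rw [e2] at h2
        have e3 : ∏ i ∈ S.erase b, G i (v - r * a b + (c + r) * a i) =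
            ∏ i ∈ S.erase b, G i (v + c * a i + r * (a i - a b)) := by
          apply prod_congr rfl
          intro i _
          congr 1
          ring
        rw [e3] at h2
        rw [hG']
        simp only
        rw [prod_mul_distrib]
        have h4 := hG b (v + c * a b)
        calc (∏ i ∈ S.erase b, G i (v + c * a i)) * ∏ i ∈ S.erase b, G i (v + c * a i + r * (a i - a b)) =
              (G b (v + c * a b) * G b (v + c * a b)) * ((∏ i ∈ S.erase b, G i (v + c * a i)) *
                ∏ i ∈ S.erase b, G i (v + c * a i + r * (a i - a b))) := by rw [h4, one_mul]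
          _ = (G b (v + c * a b) * ∏ i ∈ S.erase b, G i (v + c * a i)) *
              (G b (v + c * a b) * ∏ i ∈ S.erase b, G i (v + c * a i + r * (a i - a b))) := by ring
          _ = τ * τ := by rw [h1, h2])
    refine ⟨τ', fun v hv => ?_⟩
    rw [Function.iterate_succ_apply, ← e1]
    exact hτ' v hv

/-- functions with constant product along the lines are periodic -/
theorem periodic {k : ℕ} (a : Fin k → ℤ) (i1 : Fin k) (ha1 : a i1 = 0) (s : ℤ) (hs : 0 ≤ s)
    (hdiv : ∀ b, b ≠ i1 → ∃ r : ℤ, r * a b = -s ∧ |r| ≤ s) (B : ℤ) (hB : 0 ≤ B)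
    (G : Fin k → ℤ → ℤ) (hG : ∀ i y, G i y * G i y = 1) (τ : ℤ)
    (h : ∀ v c : ℤ, |v| ≤ B + 2 ^ k * s + k * s → |c| ≤ B + 2 ^ k * s + k * s →
      ∏ i, G i (v + c * a i) = τ) :
    ∀ v : ℤ, |v| ≤ B → G i1 (v + 2 ^ k * s) = G i1 v := by
  have hk : 1 ≤ k := by
    have := i1.isLt
    omega
  have h2k : k ≤ 2 ^ k := Nat.lt_two_pow_self.le
  obtain ⟨τ', hτ'⟩ := elim a i1 ha1 s s (by rw [abs_of_nonneg hs]) hdiv (B + 2 ^ k * s)
    (by positivity) (k - 1) univ (mem_univ _) (by rw [card_univ, Fintype.card_fin]; omega) G hG τ (by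
      intro v c hv hc
      have h1 : ((k - 1 : ℕ) : ℤ) * s ≤ k * s := by
        apply mul_le_mul_of_nonneg_right _ hs
        exact_mod_cast Nat.sub_le _ _
      exact h v c (by linarith) (by linarith))
  have hsq : ∀ m : ℕ, ∀ y, ((Dop s)^[m] (G i1)) y * ((Dop s)^[m] (G i1)) y = 1 := by
    intro m
    induction m with
    | zero => intro y; simpa using hG i1 y
    | succ m ih =>
      intro y
      rw [Function.iterate_succ_apply']
      exact Dop_sq s _ ih y
  have hτ1 : τ' * τ' = 1 := by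
    have := hsq (k - 1) 0
    rwa [hτ' 0 (by rw [abs_zero]; positivity)] at this
  -- one more difference gives `1`
  have h1 : ∀ v : ℤ, |v| ≤ B + ((2 ^ k - k : ℕ) : ℤ) * |s| → ((Dop s)^[k] (G i1)) v = 1 := by
    intro v hv
    rw [abs_of_nonneg hs] at hv
    have e : (Dop s)^[k] (G i1) = Dop s ((Dop s)^[k - 1] (G i1)) := by
      rw [← Function.iterate_succ_apply' (Dop s)]
      congr 2
      omega
    rw [e]
    change ((Dop s)^[k - 1] (G i1)) v * ((Dop s)^[k - 1] (G i1)) (v + s) = 1
    have h3 : (((2 ^ k - k : ℕ) : ℤ) + 1) * s ≤ 2 ^ k * s := by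
      apply mul_le_mul_of_nonneg_right _ hs
      have : (2 ^ k - k + 1 : ℕ) ≤ 2 ^ k := by omega
      exact_mod_cast this
    have h4 := abs_add_le v s
    rw [abs_of_nonneg hs] at h4
    rw [hτ' v (by nlinarith), hτ' (v + s) (by nlinarith), hτ1]
  intro v hv
  have h2 := Dop_iter_one s B (2 ^ k - k) ((Dop s)^[k] (G i1)) h1 v hv
  rw [← Function.iterate_add_apply, Nat.sub_add_cancel h2k, Dop_pow s k (G i1) (hG i1)] at h2
  unfold Dop at h2
  have h3 := hG i1 v
  calc G i1 (v + 2 ^ k * s) = (G i1 v * G i1 v) * G i1 (v + 2 ^ k * s) := by rw [h3, one_mul]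
    _ = G i1 v * (G i1 v * G i1 (v + 2 ^ k * s)) := by ring
    _ = G i1 v := by rw [h2, mul_one]

end Pool.Agent.Helper81.Gap
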