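import Pool.Agent.Helper81.Gap.Det

/-!
The deterministic inequality, assembled.
-/

set_option autoImplicit false

open Finset

namespace Pool.Agent.Helper81.Gap

section det

variable {k : ℕ} (x a : Fin k → ℤ) (i1 : Fin k) (Y : ℤ → ℤ → ℤ) (σ : ℤ) (K₁ K₂ : ℕ)

/-- the proportion of the wrong lines in the grids -/
noncomputable def SS : ℝ :=
  (∑ i, TT x a i1 Y σ K₁ K₂ i) / ((2 * (K₁ : ℝ) + 1) * (2 * (K₁ : ℝ) + 1) * (2 * K₂ + 1)) +
    (∑ b ∈ univ.erase i1, RR x a Y σ K₁ K₂ b) / ((2 * (K₁ : ℝ) + 1) * (2 * K₂ + 1))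

/-- the proportion of the wrong lines through the points of a progression -/
noncomputable def DD (R : ℤ) (J : ℕ) : ℝ :=
  (∑ j ∈ range J, ∑ e ∈ SI K₁, Fl x a Y σ (x i1) (j * R) e) / (J * (2 * (K₁ : ℝ) + 1))

/-- the mean along a progression -/
noncomputable def AA (R : ℤ) (J : ℕ) : ℝ := |(∑ j ∈ range J, (Y (x i1 + x i1) (j * R) : ℝ)) / J|

lemma TT_nonneg (i : Fin k) : 0 ≤ TT x a i1 Y σ K₁ K₂ i := by
  unfold TT
  have := Fl_nonneg x a Y σ
  apply mul_nonneg (by norm_num)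
  exact sum_nonneg fun _ _ => sum_nonneg fun _ _ => sum_nonneg fun _ _ => sum_nonneg fun _ _ => this _ _ _

lemma RR_nonneg (b : Fin k) : 0 ≤ RR x a Y σ K₁ K₂ b := by
  unfold RR
  have := Fl_nonneg x a Y σ
  exact sum_nonneg fun _ _ => sum_nonneg fun _ _ => this _ _ _

lemma SS_nonneg : 0 ≤ SS x a i1 Y σ K₁ K₂ := by
  unfold SS
  have h1 := sum_nonneg fun i (_ : i ∈ (univ : Finset (Fin k))) => TT_nonneg x a i1 Y σ K₁ K₂ i
  have h2 := sum_nonneg fun b (_ : b ∈ univ.erase i1) => RR_nonneg x a Y σ K₁ K₂ b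
  positivity

lemma DD_nonneg (R : ℤ) (J : ℕ) : 0 ≤ DD x a i1 Y σ K₁ R J := by
  unfold DD
  have h1 : 0 ≤ ∑ j ∈ range J, ∑ e ∈ SI K₁, Fl x a Y σ (x i1) (j * R) e :=
    sum_nonneg fun _ _ => sum_nonneg fun _ _ => Fl_nonneg x a Y σ _ _ _
  positivity

lemma AA_nonneg (R : ℤ) (J : ℕ) : 0 ≤ AA x i1 Y R J := abs_nonneg _

variable (ha1 : a i1 = 0) (hY : ∀ z y, Y z y = 1 ∨ Y z y = -1) (hσ : σ = 1 ∨ σ = -1)

include ha1 hY hσ in
/-- the end of the argument: the majority function is constant along a progression -/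
lemma const_end (R : ℤ) (J : ℕ) (hJ : 1 ≤ J)
    (h : ∀ j < J, gg x a i1 Y σ K₁ i1 (j * R) = gg x a i1 Y σ K₁ i1 0) :
    1 ≤ 4 * DD x a i1 Y σ K₁ R J + AA x i1 Y R J := by
  classical
  set γ : ℤ := gg x a i1 Y σ K₁ i1 0 with hγ
  have hγ1 : γ = 1 ∨ γ = -1 := gm_pm _ _
  have hγr : |(γ : ℝ)| = 1 := by
    rcases hγ1 with h | h <;> rw [h] <;> norm_num
  set Yj : ℕ → ℤ := fun j => Y (x i1 + x i1) (j * R) with hYj
  set Bad : Finset ℕ := (range J).filter (fun j => Yj j ≠ γ) with hBad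
  have hJ0 : (0 : ℝ) < J := by exact_mod_cast hJ
  have hn : (0 : ℝ) < 2 * K₁ + 1 := by positivity
  have h1 : ∀ j ∈ Bad, (2 * (K₁ : ℝ) + 1) / 2 ≤ ∑ e ∈ SI K₁, Fl x a Y σ (x i1) (j * R) e := by
    intro j hj
    rw [hBad, mem_filter, mem_range] at hj
    have h2 : (((SI K₁).filter (fun e => Vt x a i1 Y σ i1 (j * R) e =
        gm (SI K₁) (Vt x a i1 Y σ i1 (j * R)))).card : ℝ) ≤
        ∑ e ∈ SI K₁, Fl x a Y σ (x i1) (j * R) e := by
      have e1 : ∑ e ∈ SI K₁, Fl x a Y σ (x i1) (j * R) e =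
          (((SI K₁).filter (fun e => Yj j ≠ Vt x a i1 Y σ i1 (j * R) e)).card : ℝ) := by
        rw [card_filter]
        push_cast
        apply sum_congr rfl
        intro e _
        rw [Fl_vote x a i1 Y σ ha1 hY hσ]
        by_cases h3 : Yj j = Vt x a i1 Y σ i1 (j * R) e
        · rw [if_neg (not_not.2 h3), if_pos h3]
        · rw [if_pos h3, if_neg h3]
      rw [e1]
      apply Nat.cast_le.2
      apply card_le_card
      intro e he
      rw [mem_filter] at he ⊢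
      refine ⟨he.1, fun h3 => hj.2 ?_⟩
      rw [h3, he.2]
      exact h j hj.1
    refine le_trans ?_ h2
    have h3 := mm_half (SI K₁) (Vt x a i1 Y σ i1 (j * R)) (Vt_pm x a i1 Y σ hY hσ i1 _)
    have h4 := mm_add (SI K₁) (Vt x a i1 Y σ i1 (j * R))
    have h5 : ((SI K₁).card : ℝ) = 2 * K₁ + 1 := SI_card K₁
    have h6 : ((SI K₁).card : ℝ) ≤ 2 * (((SI K₁).filter (fun e => Vt x a i1 Y σ i1 (j * R) e =
        gm (SI K₁) (Vt x a i1 Y σ i1 (j * R)))).card : ℝ) := by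
      exact_mod_cast (by omega : (SI K₁).card ≤ 2 * ((SI K₁).filter (fun e => Vt x a i1 Y σ i1 (j * R) e =
        gm (SI K₁) (Vt x a i1 Y σ i1 (j * R)))).card)
    rw [h5] at h6
    linarith
  have h2 : (Bad.card : ℝ) * ((2 * (K₁ : ℝ) + 1) / 2) ≤
      ∑ j ∈ range J, ∑ e ∈ SI K₁, Fl x a Y σ (x i1) (j * R) e := by
    rw [← nsmul_eq_mul]
    refine (card_nsmul_le_sum Bad _ _ h1).trans ?_
    apply sum_le_sum_of_subset_of_nonneg (filter_subset _ _)
    intro j _ _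
    exact sum_nonneg fun _ _ => Fl_nonneg x a Y σ _ _ _
  have h3 : (Bad.card : ℝ) / J ≤ 2 * DD x a i1 Y σ K₁ R J := by
    unfold DD
    rw [div_le_iff₀ hJ0]
    have e1 : 2 * ((∑ j ∈ range J, ∑ e ∈ SI K₁, Fl x a Y σ (x i1) (j * R) e) / (J * (2 * (K₁ : ℝ) + 1))) * J =
        2 * (∑ j ∈ range J, ∑ e ∈ SI K₁, Fl x a Y σ (x i1) (j * R) e) / (2 * (K₁ : ℝ) + 1) := by
      field_simp
    rw [e1, le_div_iff₀ hn]
    linarith
  -- the mean
  have h4 : ∑ j ∈ range J, ((γ * Yj j : ℤ) : ℝ) = J - 2 * Bad.card := by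
    have e0 : ∀ z w : ℤ, (z = 1 ∨ z = -1) → (w = 1 ∨ w = -1) →
        ((w * z : ℤ) : ℝ) = 1 - 2 * (if z ≠ w then (1 : ℝ) else 0) := by
      rintro z w (rfl | rfl) (rfl | rfl) <;> norm_num
    have e1 : ∀ j ∈ range J, ((γ * Yj j : ℤ) : ℝ) = 1 - 2 * (if Yj j ≠ γ then (1 : ℝ) else 0) :=
      fun j _ => e0 (Yj j) γ (hY _ _) hγ1
    rw [sum_congr rfl e1, sum_sub_distrib, ← mul_sum, ← sum_filter, sum_const, sum_const, card_range]
    simp only [nsmul_eq_mul, mul_one]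
    rfl
  have h5 : 1 - 2 * ((Bad.card : ℝ) / J) ≤ AA x i1 Y R J := by
    unfold AA
    have e1 : |(∑ j ∈ range J, (Y (x i1 + x i1) (j * R) : ℝ)) / J| =
        |(γ : ℝ) * ((∑ j ∈ range J, (Y (x i1 + x i1) (j * R) : ℝ)) / J)| := by
      rw [abs_mul, hγr, one_mul]
    have e2 : (γ : ℝ) * ((∑ j ∈ range J, (Y (x i1 + x i1) (j * R) : ℝ)) / J) =
        (∑ j ∈ range J, ((γ * Yj j : ℤ) : ℝ)) / J := by
      rw [← mul_div_assoc, mul_sum]
      congr 1
      apply sum_congr rfl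
      intro j _
      push_cast
      rfl
    rw [e1, e2, h4]
    refine le_trans (le_of_eq ?_) (le_abs_self _)
    field_simp
  linarith

include ha1 hY hσ in
/-- **the deterministic inequality** -/
theorem det_main (s J : ℕ) (hJ : 1 ≤ J) (hs1 : 1 ≤ s) (ha0 : ∀ b, b ≠ i1 → a b ≠ 0)
    (hs : ∀ b, b ≠ i1 → a b ∣ (s : ℤ)) (H η : ℝ) (hH : ∀ i, |(a i : ℝ)| ≤ H)
    (hη : (k : ℝ) * (2 * (k - 1 : ℕ) * (s * ((J * 2 ^ k * s + 2 ^ k * s + k * s) * (1 + H))) + K₂ * H) /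
        (2 * K₁ + 1) + (k - 1 : ℕ) * ((s * (J * 2 ^ k * s + 2 ^ k * s + k * s)) / (2 * K₁ + 1) +
          (s * (J * 2 ^ k * s + 2 ^ k * s + k * s)) / (2 * K₂ + 1)) ≤ η) :
    1 - η ≤ SS x a i1 Y σ K₁ K₂ + 4 * DD x a i1 Y σ K₁ (2 ^ k * s * s) J +
      AA x i1 Y (2 ^ k * s * s) J := by
  classical
  have hD := DD_nonneg x a i1 Y σ K₁ (2 ^ k * s * s) J
  have hA := AA_nonneg x i1 Y (2 ^ k * s * s) J
  by_cases hS : 1 - η ≤ SS x a i1 Y σ K₁ K₂
  · linarith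
  push Not at hS
  have hH0 : 0 ≤ H := (abs_nonneg _).trans (hH i1)
  set W : ℝ := J * 2 ^ k * s + 2 ^ k * s + k * s with hW
  have hW0 : 0 ≤ W := by positivity
  have hη0 : 0 ≤ η := by
    refine le_trans ?_ hη
    positivity
  set n₁ : ℝ := 2 * (K₁ : ℝ) + 1 with hn₁
  set n₂ : ℝ := 2 * (K₂ : ℝ) + 1 with hn₂
  have hn₁0 : 0 < n₁ := by positivity
  have hn₂0 : 0 < n₂ := by positivity
  set B₀ : ℤ := J * (2 ^ k * s) + 2 ^ k * s + k * s with hB₀
  have hB₀r : (B₀ : ℝ) = W := by rw [hB₀, hW]; push_cast; ring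
  -- multiples of `s`
  have hmul : ∀ (w : ℤ) (Z : ℝ), |(w : ℝ)| ≤ Z → ∀ b, b ≠ i1 →
      ∃ z : ℤ, s * w = z * a b ∧ |(z : ℝ)| ≤ s * Z := by
    intro w Z hw b hb
    obtain ⟨t, ht⟩ := hs b hb
    refine ⟨t * w, by rw [ht]; ring, ?_⟩
    have h2 : |t| ≤ (s : ℤ) := by
      have h3 : |(s : ℤ)| = |a b| * |t| := by rw [ht, abs_mul]
      rw [abs_of_nonneg (Int.natCast_nonneg s)] at h3
      have h4 : 1 ≤ |a b| := Int.one_le_abs (ha0 b hb)
      have h5 : 0 ≤ |t| := abs_nonneg t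
      nlinarith
    have h3 : ((|t| : ℤ) : ℝ) ≤ ((s : ℤ) : ℝ) := by exact_mod_cast h2
    rw [Int.cast_abs] at h3
    have h1 : |(t : ℝ)| ≤ s := by exact_mod_cast h3
    push_cast
    rw [abs_mul]
    exact mul_le_mul h1 hw (abs_nonneg _) (Nat.cast_nonneg _)
  have habs : ∀ w : ℤ, |w| ≤ B₀ → |(w : ℝ)| ≤ W := by
    intro w hw
    rw [← hB₀r, ← Int.cast_abs]
    exact_mod_cast hw
  -- exactness
  have hexact : ∀ v c : ℤ, |v| ≤ B₀ → |c| ≤ B₀ →
      ∏ i, gg x a i1 Y σ K₁ i (s * (v + c * a i)) = σ := by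
    intro v c hv hc
    have h1 := exact_of x a i1 Y σ K₁ K₂ hσ (s * v) (s * c) (s * W) H hH
      (hmul v W (habs v hv)) (hmul c W (habs c hc))
    have e1 : ∀ i, (s : ℤ) * v + s * c * a i = s * (v + c * a i) := fun i => by ring
    simp only [e1] at h1
    apply h1
    have h2 : ∀ i ∈ (univ : Finset (Fin k)),
        n₂ * (mm (SI K₁) (Vt x a i1 Y σ i (s * (v + c * a i))) + K₂ * H) ≤
        TT x a i1 Y σ K₁ K₂ i / n₁ + n₂ * (2 * (k - 1 : ℕ) * (s * (W * (1 + H))) + K₂ * H) := by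
      intro i _
      have h3 := minority x a i1 Y σ K₁ K₂ ha1 hY hσ i (s * (v + c * a i)) (s * (W * (1 + H)))
        (hmul (v + c * a i) (W * (1 + H)) (by
          push_cast
          have h4 := abs_add_le (v : ℝ) (c * a i)
          rw [abs_mul] at h4
          have h5 := habs v hv
          have h6 : |(c : ℝ)| * |(a i : ℝ)| ≤ W * H :=
            mul_le_mul (habs c hc) (hH i) (abs_nonneg _) hW0
          linarith))
      have h4 : n₂ * (mm (SI K₁) (Vt x a i1 Y σ i (s * (v + c * a i))) : ℝ) ≤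
          TT x a i1 Y σ K₁ K₂ i / n₁ + n₂ * (2 * (k - 1 : ℕ) * (s * (W * (1 + H)))) := by
        have e2 : TT x a i1 Y σ K₁ K₂ i / n₁ + n₂ * (2 * (k - 1 : ℕ) * (s * (W * (1 + H)))) =
            (TT x a i1 Y σ K₁ K₂ i + 2 * (k - 1 : ℕ) * n₁ * n₂ * (s * (W * (1 + H)))) / n₁ := by
          field_simp
        rw [e2, le_div_iff₀ hn₁0]
        calc n₂ * (mm (SI K₁) (Vt x a i1 Y σ i (s * (v + c * a i))) : ℝ) * n₁ =
              n₁ * n₂ * mm (SI K₁) (Vt x a i1 Y σ i (s * (v + c * a i))) := by ring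
          _ ≤ _ := h3
      calc n₂ * ((mm (SI K₁) (Vt x a i1 Y σ i (s * (v + c * a i))) : ℝ) + K₂ * H) =
            n₂ * (mm (SI K₁) (Vt x a i1 Y σ i (s * (v + c * a i))) : ℝ) + n₂ * (K₂ * H) := by ring
        _ ≤ TT x a i1 Y σ K₁ K₂ i / n₁ + n₂ * (2 * (k - 1 : ℕ) * (s * (W * (1 + H)))) + n₂ * (K₂ * H) := by
            linarith
        _ = _ := by ring
    have h3 := sum_le_sum h2
    rw [sum_add_distrib, sum_const, card_univ, Fintype.card_fin, nsmul_eq_mul, ← sum_div] at h3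
    have h4 : ∑ b ∈ univ.erase i1, (RR x a Y σ K₁ K₂ b + n₂ * (s * W) + n₁ * (s * W)) =
        ∑ b ∈ univ.erase i1, RR x a Y σ K₁ K₂ b + (k - 1 : ℕ) * (n₂ * (s * W) + n₁ * (s * W)) := by
      have e2 : ∀ b ∈ univ.erase i1, RR x a Y σ K₁ K₂ b + n₂ * (s * W) + n₁ * (s * W) =
        RR x a Y σ K₁ K₂ b + (n₂ * (s * W) + n₁ * (s * W)) := fun b _ => by ring
      rw [sum_congr rfl e2, sum_add_distrib, sum_const, card_erase_of_mem (mem_univ _), card_univ,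
        Fintype.card_fin, nsmul_eq_mul]
    rw [h4]
    have h5 : n₁ * n₂ * (SS x a i1 Y σ K₁ K₂) =
        (∑ i, TT x a i1 Y σ K₁ K₂ i) / n₁ + ∑ b ∈ univ.erase i1, RR x a Y σ K₁ K₂ b := by
      unfold SS
      rw [← hn₁, ← hn₂]
      field_simp
    have h6 : n₁ * n₂ * ((k : ℝ) * (2 * (k - 1 : ℕ) * (s * (W * (1 + H))) + K₂ * H) / n₁ +
        (k - 1 : ℕ) * ((s * W) / n₁ + (s * W) / n₂)) =
        k * (n₂ * (2 * (k - 1 : ℕ) * (s * (W * (1 + H))) + K₂ * H)) +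
          (k - 1 : ℕ) * (n₂ * (s * W) + n₁ * (s * W)) := by
      field_simp
    have h7 := mul_le_mul_of_nonneg_left hη (mul_pos hn₁0 hn₂0).le
    have h8 := mul_lt_mul_of_pos_left hS (mul_pos hn₁0 hn₂0)
    rw [h6] at h7
    rw [h5] at h8
    nlinarith
  -- periodicity
  have hper := periodic a i1 ha1 (s : ℤ) (Int.natCast_nonneg s) (by
      intro b hb
      obtain ⟨t, ht⟩ := hs b hb
      refine ⟨-t, by rw [ht]; ring, ?_⟩
      rw [abs_neg]
      have h3 : |(s : ℤ)| = |a b| * |t| := by rw [ht, abs_mul]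
      rw [abs_of_nonneg (Int.natCast_nonneg s)] at h3
      have h4 : 1 ≤ |a b| := Int.one_le_abs (ha0 b hb)
      have h5 : 0 ≤ |t| := abs_nonneg t
      nlinarith) (J * (2 ^ k * s)) (by positivity)
    (fun i y => gg x a i1 Y σ K₁ i (s * y)) (by
      intro i y
      rcases gm_pm (SI K₁) (Vt x a i1 Y σ i (s * y)) with h | h
      · have : gg x a i1 Y σ K₁ i (s * y) = 1 := h
        rw [this]; norm_num
      · have : gg x a i1 Y σ K₁ i (s * y) = -1 := h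
        rw [this]; norm_num) σ hexact
  have hconst : ∀ j : ℕ, j ≤ J → gg x a i1 Y σ K₁ i1 (s * (j * (2 ^ k * s))) = gg x a i1 Y σ K₁ i1 0 := by
    intro j
    induction j with
    | zero => intro _; simp
    | succ j ih =>
      intro hj
      rw [← ih (by omega)]
      have h1 := hper (j * (2 ^ k * s)) (by
        rw [abs_of_nonneg (by positivity)]
        apply mul_le_mul_of_nonneg_right _ (by positivity)
        exact_mod_cast (by omega : j ≤ J))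
      rw [← h1]
      congr 1
      push_cast
      ring
  have hend := const_end x a i1 Y σ K₁ ha1 hY hσ (2 ^ k * s * s) J hJ (by
    intro j hj
    rw [← hconst j hj.le]
    congr 1
    ring)
  have hSS := SS_nonneg x a i1 Y σ K₁ K₂
  linarith

end det

end Pool.Agent.Helper81.Gap
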