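import Pool.Agent.Helper81.Gap.Main
import Pool.Graph.R_seed8.Y958.TC.NM

/-!
The inequality for random functions on the plane.
-/

set_option autoImplicit false

open Finset

namespace Pool.Agent.Helper81.Gap

open Pool.Agent.TH112.BL (Bd)
open Pool.Agent.Y958.TC (NM ind Bd_ind ind_nonneg)

/-- bounded with mean at most `C` -/
def UB (μ : NM) (G : ℕ → ℝ) (C : ℝ) : Prop := Bd G ∧ μ.m G ≤ C

lemma UB.cmul {μ : NM} {G : ℕ → ℝ} {C : ℝ} (h : UB μ G C) (c : ℝ) (hc : 0 ≤ c) :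
    UB μ (fun n => c * G n) (c * C) := by
  refine ⟨h.1.cmul c, ?_⟩
  rw [μ.smul _ _ h.1]
  exact mul_le_mul_of_nonneg_left h.2 hc

lemma UB.div {μ : NM} {G : ℕ → ℝ} {C : ℝ} (h : UB μ G C) (c : ℝ) (hc : 0 ≤ c) :
    UB μ (fun n => G n / c) (C / c) := by
  have := h.cmul c⁻¹ (inv_nonneg.2 hc)
  simpa only [div_eq_inv_mul] using this

lemma UB.add {μ : NM} {G G' : ℕ → ℝ} {C C' : ℝ} (h : UB μ G C) (h' : UB μ G' C') :
    UB μ (fun n => G n + G' n) (C + C') := by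
  refine ⟨h.1.add h'.1, ?_⟩
  rw [μ.add _ _ h.1 h'.1]
  exact add_le_add h.2 h'.2

lemma UB.sum {μ : NM} {ι : Type*} (s : Finset ι) {G : ι → ℕ → ℝ} {C : ℝ} (h : ∀ i ∈ s, UB μ (G i) C) :
    UB μ (fun n => ∑ i ∈ s, G i n) (s.card * C) := by
  refine ⟨Pool.Agent.TH112.BL.Bd.sum s fun i hi => (h i hi).1, ?_⟩
  rw [μ.sum s fun i hi => (h i hi).1]
  refine (sum_le_sum fun i hi => (h i hi).2).trans (le_of_eq ?_)
  rw [sum_const, nsmul_eq_mul]

lemma UB.of_le {μ : NM} {G G' : ℕ → ℝ} {C : ℝ} (h : UB μ G C) (hG : Bd G') (hle : ∀ n, G' n ≤ G n) :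
    UB μ G' C := ⟨hG, (μ.mono hG h.1 hle).trans h.2⟩

lemma choose_K (k s J : ℕ) (H : ℝ) (hH : 0 ≤ H) (ε : ℝ) (hε : 0 < ε) : ∃ K₁ K₂ : ℕ,
    (k : ℝ) * (2 * (k - 1 : ℕ) * (s * ((J * 2 ^ k * s + 2 ^ k * s + k * s) * (1 + H))) + K₂ * H) /
        (2 * K₁ + 1) + (k - 1 : ℕ) * ((s * (J * 2 ^ k * s + 2 ^ k * s + k * s)) / (2 * K₁ + 1) +
          (s * (J * 2 ^ k * s + 2 ^ k * s + k * s)) / (2 * K₂ + 1)) ≤ ε := by
  set W : ℝ := s * (J * 2 ^ k * s + 2 ^ k * s + k * s) with hW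
  have hW0 : 0 ≤ W := by positivity
  set r : ℝ := ((k - 1 : ℕ) : ℝ) with hr
  have hr0 : 0 ≤ r := by positivity
  obtain ⟨K₂, hK₂⟩ := exists_nat_ge (r * W / (ε / 2))
  set U : ℝ := (k : ℝ) * (2 * r * (s * ((J * 2 ^ k * s + 2 ^ k * s + k * s) * (1 + H))) + K₂ * H) with hU
  have hU0 : 0 ≤ U := by positivity
  obtain ⟨K₁, hK₁⟩ := exists_nat_ge ((U + r * W) / (ε / 2))
  refine ⟨K₁, K₂, ?_⟩
  have h1 : (0 : ℝ) < 2 * K₁ + 1 := by positivity
  have h2 : (0 : ℝ) < 2 * K₂ + 1 := by positivity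
  have h3 : r * W / (2 * K₂ + 1) ≤ ε / 2 := by
    rw [div_le_iff₀ h2]
    rw [div_le_iff₀ (by positivity)] at hK₂
    have : (0 : ℝ) ≤ K₂ := by positivity
    nlinarith
  have h4 : (U + r * W) / (2 * K₁ + 1) ≤ ε / 2 := by
    rw [div_le_iff₀ h1]
    rw [div_le_iff₀ (by positivity)] at hK₁
    have : (0 : ℝ) ≤ K₁ := by positivity
    nlinarith
  calc U / (2 * K₁ + 1) + r * (W / (2 * K₁ + 1) + W / (2 * K₂ + 1)) =
        (U + r * W) / (2 * K₁ + 1) + r * W / (2 * K₂ + 1) := by ring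
    _ ≤ ε := by linarith

section

variable {k : ℕ} (x : Fin k → ℤ) (i1 : Fin k) (μ : NM) (Y : ℤ → ℤ → ℕ → ℤ) (σ : ℤ)

/-- the slopes -/
def sl (j : Fin k) : ℤ := x j - x i1

lemma Fl_ind (u y c : ℤ) : (fun n => Fl x (sl x i1) (fun z w => Y z w n) σ u y c) =
    ind (fun n => ∏ j, Y (u + x j) (y - c * x i1 + c * x j) n ≠ σ) := by
  classical
  funext n
  unfold Fl LP ind
  have e : ∏ j, Y (u + x j) (y + c * sl x i1 j) n = ∏ j, Y (u + x j) (y - c * x i1 + c * x j) n := by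
    apply prod_congr rfl
    intro j _
    congr 1
    unfold sl
    ring
  rw [e]
  by_cases h : ∏ j, Y (u + x j) (y - c * x i1 + c * x j) n = σ
  · rw [if_pos h, if_neg (not_not.2 h)]
  · rw [if_neg h, if_pos h]

variable (K : ℕ) (q : ℝ)

lemma Fl_UB (hrel : ∀ u v c : ℤ, |c| ≤ K → μ.m (ind (fun n => ∏ j, Y (u + x j) (v + c * x j) n ≠ σ)) ≤ q)
    (u y c : ℤ) (hc : |c| ≤ K) : UB μ (fun n => Fl x (sl x i1) (fun z w => Y z w n) σ u y c) q := by
  rw [Fl_ind]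
  exact ⟨Bd_ind _, hrel _ _ _ hc⟩

lemma SI_abs {K : ℕ} {e : ℤ} (h : e ∈ SI K) : |e| ≤ K := by
  unfold SI at h
  rw [mem_Icc] at h
  exact abs_le.2 ⟨by omega, by omega⟩

lemma SI_card' (K : ℕ) : ((SI K).card : ℝ) = 2 * K + 1 := SI_card K

/-- the mean of the proportion of wrong lines -/
lemma SS_UB (K₁ K₂ H : ℕ) (hH : ∀ i, |sl x i1 i| ≤ H) (hK : K₁ + K₂ * H ≤ K)
    (hrel : ∀ u v c : ℤ, |c| ≤ K → μ.m (ind (fun n => ∏ j, Y (u + x j) (v + c * x j) n ≠ σ)) ≤ q) :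
    UB μ (fun n => SS x (sl x i1) i1 (fun z w => Y z w n) σ K₁ K₂) ((2 * (k : ℝ) ^ 2 - k - 1) * q) := by
  classical
  have hk : 1 ≤ k := by
    rcases Nat.eq_zero_or_pos k with h | h
    · subst h; exact Fin.elim0 i1
    · exact h
  set n₁ : ℝ := 2 * (K₁ : ℝ) + 1 with hn₁
  set n₂ : ℝ := 2 * (K₂ : ℝ) + 1 with hn₂
  have hn₁0 : 0 < n₁ := by positivity
  have hn₂0 : 0 < n₂ := by positivity
  have hFl := Fl_UB x i1 μ Y σ K q hrel
  have hmul : ∀ (δ : ℤ) (b : Fin k), |δ| ≤ K₂ → |δ * sl x i1 b| ≤ K₂ * H := by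
    intro δ b h
    rw [abs_mul]
    exact mul_le_mul h (hH b) (abs_nonneg _) (by positivity)
  have hce : ((univ.erase i1 : Finset (Fin k)).card : ℝ) = (k : ℝ) - 1 := by
    rw [card_erase_of_mem (mem_univ _), card_univ, Fintype.card_fin]
    push_cast [Nat.cast_sub hk]
    ring
  have hT : ∀ i ∈ (univ : Finset (Fin k)), UB μ (fun n => TT x (sl x i1) i1 (fun z w => Y z w n) σ K₁ K₂ i)
      (2 * (((univ.erase i1 : Finset (Fin k)).card : ℝ) * (((SI K₁).card : ℝ) * (((SI K₁).card : ℝ) *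
        (((SI K₂).card : ℝ) * q))))) := by
    intro i _
    unfold TT
    apply UB.cmul _ 2 (by norm_num)
    apply UB.sum
    intro b _
    apply UB.sum
    intro e he
    apply UB.sum
    intro e' he'
    apply UB.sum
    intro δ hδ
    apply hFl
    have h1 := hmul δ b (SI_abs hδ)
    have h2 := SI_abs he
    have h3 := abs_add_le e (δ * sl x i1 b)
    have h4 : ((K₁ + K₂ * H : ℕ) : ℤ) ≤ K := by exact_mod_cast hK
    push_cast at h4
    linarith
  have hR : ∀ b ∈ univ.erase i1, UB μ (fun n => RR x (sl x i1) (fun z w => Y z w n) σ K₁ K₂ b)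
      (((SI K₁).card : ℝ) * (((SI K₂).card : ℝ) * q)) := by
    intro b _
    unfold RR
    apply UB.sum
    intro e' he'
    apply UB.sum
    intro δ hδ
    apply hFl
    have h1 := hmul δ b (SI_abs hδ)
    have h4 : ((K₁ + K₂ * H : ℕ) : ℤ) ≤ K := by exact_mod_cast hK
    push_cast at h4
    have h5 : (0 : ℤ) ≤ K₁ := by positivity
    linarith
  have h1 := ((UB.sum univ hT).div (n₁ * n₁ * n₂) (by positivity)).add
    ((UB.sum (univ.erase i1) hR).div (n₁ * n₂) (by positivity))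
  have e1 : ((univ : Finset (Fin k)).card : ℝ) * (2 * (((univ.erase i1 : Finset (Fin k)).card : ℝ) *
      (((SI K₁).card : ℝ) * (((SI K₁).card : ℝ) * (((SI K₂).card : ℝ) * q))))) / (n₁ * n₁ * n₂) +
      ((univ.erase i1 : Finset (Fin k)).card : ℝ) * (((SI K₁).card : ℝ) * (((SI K₂).card : ℝ) * q)) /
      (n₁ * n₂) = (2 * (k : ℝ) ^ 2 - k - 1) * q := by
    rw [hce, SI_card', SI_card', ← hn₁, ← hn₂, card_univ, Fintype.card_fin]
    field_simp
    ring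
  rw [e1] at h1
  exact h1

/-- the mean of the proportion of wrong lines through a progression -/
lemma DD_UB (K₁ : ℕ) (hK : K₁ ≤ K) (R : ℤ) (J : ℕ) (hJ : 1 ≤ J)
    (hrel : ∀ u v c : ℤ, |c| ≤ K → μ.m (ind (fun n => ∏ j, Y (u + x j) (v + c * x j) n ≠ σ)) ≤ q) :
    UB μ (fun n => DD x (sl x i1) i1 (fun z w => Y z w n) σ K₁ R J) q := by
  have hFl := Fl_UB x i1 μ Y σ K q hrel
  have hJ0 : (0 : ℝ) < J := by exact_mod_cast hJ
  have hn₁0 : (0 : ℝ) < 2 * (K₁ : ℝ) + 1 := by positivity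
  have h1 : UB μ (fun n => DD x (sl x i1) i1 (fun z w => Y z w n) σ K₁ R J)
      (((range J).card : ℝ) * (((SI K₁).card : ℝ) * q) / (J * (2 * (K₁ : ℝ) + 1))) := by
    unfold DD
    apply UB.div _ _ (by positivity)
    apply UB.sum
    intro j _
    apply UB.sum
    intro e he
    apply hFl
    have := SI_abs he
    have h2 : (K₁ : ℤ) ≤ K := by exact_mod_cast hK
    linarith
  have e1 : ((range J).card : ℝ) * (((SI K₁).card : ℝ) * q) / (J * (2 * (K₁ : ℝ) + 1)) = q := by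
    rw [SI_card', card_range]
    field_simp
  rwa [e1] at h1

/-- the local averages are small -/
lemma AA_UB (hY : ∀ z y n, Y z y n = 1 ∨ Y z y n = -1)
    (h2 : ∀ z y y', y ≠ y' → μ.m (fun n => ((Y z y n * Y z y' n : ℤ) : ℝ)) = 0)
    (R : ℤ) (hR : R ≠ 0) (t : ℕ) (ht : 1 ≤ t) :
    UB μ (fun n => AA x i1 (fun z w => Y z w n) R (t ^ 2)) (1 / t) := by
  classical
  have ht0 : (0 : ℝ) < t := by exact_mod_cast ht
  set z : ℤ := x i1 + x i1 with hz
  set J : ℕ := t ^ 2 with hJ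
  have hJ0 : (0 : ℝ) < J := by rw [hJ]; push_cast; positivity
  have hB : ∀ j j' : ℕ, Bd (fun n => ((Y z (j * R) n * Y z (j' * R) n : ℤ) : ℝ)) := by
    intro j j'
    refine ⟨1, fun n => ?_⟩
    beta_reduce
    rcases hY z (j * R) n with h | h <;> rcases hY z (j' * R) n with h' | h' <;> rw [h, h'] <;> norm_num
  have hsq : UB μ (fun n => ∑ j ∈ range J, ∑ j' ∈ range J, ((Y z (j * R) n * Y z (j' * R) n : ℤ) : ℝ))
      J := by
    have hB1 : ∀ j ∈ range J, Bd (fun n => ∑ j' ∈ range J, ((Y z (j * R) n * Y z (j' * R) n : ℤ) : ℝ)) :=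
      fun j _ => Pool.Agent.TH112.BL.Bd.sum _ fun j' _ => hB j j'
    refine ⟨Pool.Agent.TH112.BL.Bd.sum _ hB1, ?_⟩
    rw [μ.sum _ hB1]
    have h3 : ∀ j ∈ range J, μ.m (fun n => ∑ j' ∈ range J, ((Y z (j * R) n * Y z (j' * R) n : ℤ) : ℝ)) =
        1 := by
      intro j hj
      rw [μ.sum _ fun j' _ => hB j j']
      rw [sum_eq_single j]
      · have e : (fun n => ((Y z (j * R) n * Y z (j * R) n : ℤ) : ℝ)) = fun _ => 1 := by
          funext n
          rcases hY z (j * R) n with h | h <;> rw [h] <;> norm_num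
        rw [e]
        exact μ.one
      · intro j' _ hne
        apply h2
        intro h
        apply hne
        have := mul_right_cancel₀ hR h
        exact_mod_cast this.symm
      · intro h
        exact absurd hj h
    rw [sum_congr rfl h3, sum_const, card_range, nsmul_eq_mul, mul_one]
  have h3 : UB μ (fun n => (t / 2 : ℝ) * ((∑ j ∈ range J, ∑ j' ∈ range J,
      ((Y z (j * R) n * Y z (j' * R) n : ℤ) : ℝ)) / (J * J)) + 1 / (2 * t))
      ((t / 2 : ℝ) * (J / (J * J)) + 1 / (2 * t)) := by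
    apply UB.add
    · exact (hsq.div _ (by positivity)).cmul _ (by positivity)
    · refine ⟨Pool.Agent.TH112.BL.Bd.const _, ?_⟩
      have h4 := μ.smul (1 / (2 * t)) (fun _ => 1) (Pool.Agent.TH112.BL.Bd.const 1)
      rw [μ.one] at h4
      simp only [mul_one] at h4
      exact le_of_eq h4
  have e3 : (t / 2 : ℝ) * (J / (J * J)) + 1 / (2 * t) = 1 / t := by
    rw [hJ]
    push_cast
    field_simp
    norm_num
  rw [e3] at h3
  have hle : ∀ n, AA x i1 (fun z w => Y z w n) R J ≤ (t / 2 : ℝ) * ((∑ j ∈ range J, ∑ j' ∈ range J,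
      ((Y z (j * R) n * Y z (j' * R) n : ℤ) : ℝ)) / (J * J)) + 1 / (2 * t) := by
    intro n
    unfold AA
    set S : ℝ := (∑ j ∈ range J, (Y z (j * R) n : ℝ)) / J with hS
    have e4 : (∑ j ∈ range J, ∑ j' ∈ range J, ((Y z (j * R) n * Y z (j' * R) n : ℤ) : ℝ)) / (J * J) =
        |S| ^ 2 := by
      rw [sq_abs, hS, div_pow, sq, sq, sum_mul_sum]
      congr 1
      apply sum_congr rfl
      intro j _
      apply sum_congr rfl
      intro j' _
      push_cast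
      rfl
    rw [e4]
    have h5 : (t / 2 : ℝ) * |S| ^ 2 + 1 / (2 * t) - |S| = (t * |S| - 1) ^ 2 / (2 * t) := by
      field_simp
      ring
    have h6 : 0 ≤ (t * |S| - 1) ^ 2 / (2 * t) := by positivity
    linarith
  refine h3.of_le ⟨1, fun n => ?_⟩ hle
  unfold AA
  rw [abs_abs, abs_div, abs_of_pos hJ0, div_le_one hJ0]
  refine (abs_sum_le_sum_abs _ _).trans ?_
  have h7 : ∀ j ∈ range J, |((Y z (j * R) n : ℤ) : ℝ)| ≤ 1 := by
    intro j _
    rcases hY z (j * R) n with h | h <;> rw [h] <;> norm_num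
  refine (sum_le_sum h7).trans ?_
  rw [sum_const, card_range, nsmul_eq_mul, mul_one]

end

/-- **the inequality for random functions on the plane** -/
theorem rs_mean (k : ℕ) (x : Fin k → ℤ) (hx : Function.Injective x) (i1 : Fin k) (ε : ℝ) (hε : 0 < ε) :
    ∃ K : ℕ, ∀ (μ : NM) (Y : ℤ → ℤ → ℕ → ℤ) (σ : ℤ) (q : ℝ), 0 ≤ q →
      (∀ z y n, Y z y n = 1 ∨ Y z y n = -1) → (σ = 1 ∨ σ = -1) →
      (∀ u v c : ℤ, |c| ≤ K → μ.m (ind (fun n => ∏ j, Y (u + x j) (v + c * x j) n ≠ σ)) ≤ q) →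
      (∀ z y y', y ≠ y' → μ.m (fun n => ((Y z y n * Y z y' n : ℤ) : ℝ)) = 0) →
      1 - ε ≤ (2 * (k : ℝ) ^ 2 - k + 3) * q := by
  classical
  set a := sl x i1 with ha
  have ha1 : a i1 = 0 := by rw [ha]; unfold sl; ring
  have ha0 : ∀ b, b ≠ i1 → a b ≠ 0 := by
    intro b hb h
    apply hb
    apply hx
    rw [ha] at h
    unfold sl at h
    omega
  set s : ℕ := ∏ b ∈ univ.erase i1, (a b).natAbs with hs
  have hs1 : 1 ≤ s := by
    rw [hs]
    exact Finset.prod_pos fun b hb => Int.natAbs_pos.2 (ha0 b (ne_of_mem_erase hb))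
  have hsd : ∀ b, b ≠ i1 → a b ∣ (s : ℤ) := by
    intro b hb
    rw [← Int.natAbs_dvd_natAbs, Int.natAbs_natCast, hs]
    exact dvd_prod_of_mem _ (mem_erase.2 ⟨hb, mem_univ b⟩)
  set H : ℕ := ∑ i, (a i).natAbs with hH
  have hHi : ∀ i, |a i| ≤ (H : ℤ) := by
    intro i
    rw [Int.abs_eq_natAbs]
    exact_mod_cast single_le_sum (f := fun i => (a i).natAbs) (fun _ _ => Nat.zero_le _) (mem_univ i)
  obtain ⟨t, ht⟩ := exists_nat_gt (2 / ε)
  have ht0 : (0 : ℝ) < t := lt_trans (by positivity) ht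
  have ht1 : 1 ≤ t := by
    by_contra h
    have : t = 0 := by omega
    rw [this] at ht0
    norm_num at ht0
  have ht2 : (1 : ℝ) / t ≤ ε / 2 := by
    rw [div_lt_iff₀ hε] at ht
    rw [div_le_iff₀ ht0]
    linarith
  obtain ⟨K₁, K₂, hη⟩ := choose_K k s (t ^ 2) H (Nat.cast_nonneg _) (ε / 2) (by positivity)
  refine ⟨K₁ + K₂ * H, ?_⟩
  intro μ Y σ q hq hY hσ hrel h2
  have hJ : 1 ≤ t ^ 2 := Nat.one_le_pow _ _ ht1
  have hR : ((2 : ℤ) ^ k * s * s) ≠ 0 := by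
    have : (s : ℤ) ≠ 0 := by exact_mod_cast (by omega : s ≠ 0)
    positivity
  have hdet := fun n => det_main x a i1 (fun z w => Y z w n) σ K₁ K₂ ha1 (fun z y => hY z y n) hσ s (t ^ 2)
    hJ hs1 ha0 hsd H (ε / 2) (by
      intro i
      have := hHi i
      rw [← Int.cast_abs]
      exact_mod_cast this) hη
  have hSS := SS_UB x i1 μ Y σ (K₁ + K₂ * H) q K₁ K₂ H hHi le_rfl hrel
  have hDD := DD_UB x i1 μ Y σ (K₁ + K₂ * H) q K₁ (Nat.le_add_right _ _) (2 ^ k * s * s) (t ^ 2) hJ hrel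
  have hAA := AA_UB x i1 μ Y hY h2 (2 ^ k * s * s) hR t ht1
  have hall := (hSS.add (hDD.cmul 4 (by norm_num))).add hAA
  have h3 : μ.m (fun _ => 1 - ε / 2) ≤ _ := μ.mono (Pool.Agent.TH112.BL.Bd.const _) hall.1 hdet
  have h4 : μ.m (fun _ => 1 - ε / 2) = 1 - ε / 2 := by
    have h4 := μ.smul (1 - ε / 2) (fun _ => 1) (Pool.Agent.TH112.BL.Bd.const 1)
    rw [μ.one] at h4
    simpa only [mul_one] using h4
  rw [h4] at h3
  have h5 := h3.trans hall.2
  nlinarith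

end Pool.Agent.Helper81.Gap
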