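import Pool.Agent.Helper81.Gap.Elim

/-!
Voting along lines (in the manner of low degree testing): deterministic part.

`Y : ℤ → ℤ → ℤ` has the values `± 1`; for most lines the product of the values of `Y` at the points
`(u + x_j, y + c a_j)` is `σ`. The value at a point is replaced by the majority of the values predicted by
the lines through the point; the new function satisfies all the relations in a bounded region.
-/

set_option autoImplicit false

open Finset

namespace Pool.Agent.Helper81.Gap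

/-! ### Majority -/

/-- the majority value -/
def gm (E : Finset ℤ) (V : ℤ → ℤ) : ℤ :=
  if (E.filter (fun e => V e ≠ 1)).card ≤ (E.filter (fun e => V e = 1)).card then 1 else -1

/-- the size of the minority -/
def mm (E : Finset ℤ) (V : ℤ → ℤ) : ℕ := (E.filter (fun e => V e ≠ gm E V)).card

lemma gm_pm (E : Finset ℤ) (V : ℤ → ℤ) : gm E V = 1 ∨ gm E V = -1 := by
  unfold gm
  split_ifs <;> simp

lemma mm_half (E : Finset ℤ) (V : ℤ → ℤ) (hV : ∀ e, V e = 1 ∨ V e = -1) :
    mm E V ≤ (E.filter (fun e => V e = gm E V)).card := by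
  unfold mm gm
  split_ifs with h
  · exact h
  · have e1 : E.filter (fun e => V e ≠ -1) = E.filter (fun e => V e = 1) := by
      apply filter_congr
      intro e _
      rcases hV e with h1 | h1 <;> rw [h1] <;> norm_num
    have e2 : E.filter (fun e => V e = -1) = E.filter (fun e => V e ≠ 1) := by
      apply filter_congr
      intro e _
      rcases hV e with h1 | h1 <;> rw [h1] <;> norm_num
    rw [e1, e2]
    omega

lemma mm_add (E : Finset ℤ) (V : ℤ → ℤ) : (E.filter (fun e => V e = gm E V)).card + mm E V = E.card := by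
  unfold mm
  exact card_filter_add_card_filter_not (s := E) (fun e => V e = gm E V)

lemma mm_le (E : Finset ℤ) (V : ℤ → ℤ) (hV : ∀ e, V e = 1 ∨ V e = -1) :
    (E.card : ℝ) * mm E V ≤ ∑ e ∈ E, ∑ e' ∈ E, if V e ≠ V e' then (1 : ℝ) else 0 := by
  classical
  set A := E.filter (fun e => V e = gm E V) with hA
  set B := E.filter (fun e => V e ≠ gm E V) with hB
  have hin : ∀ e, ∑ e' ∈ E, (if V e ≠ V e' then (1 : ℝ) else 0) =
      ((E.filter (fun e' => V e ≠ V e')).card : ℝ) := by
    intro e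
    rw [← sum_filter, sum_const, nsmul_eq_mul, mul_one]
  have h1 : ∀ e ∈ A, (B.card : ℝ) ≤ ∑ e' ∈ E, (if V e ≠ V e' then (1 : ℝ) else 0) := by
    intro e he
    rw [hin]
    apply Nat.cast_le.2
    apply card_le_card
    intro e' he'
    rw [hA, mem_filter] at he
    rw [hB, mem_filter] at he'
    rw [mem_filter]
    exact ⟨he'.1, fun h => he'.2 (by rw [← h, he.2])⟩
  have h2 : ∀ e ∈ B, (A.card : ℝ) ≤ ∑ e' ∈ E, (if V e ≠ V e' then (1 : ℝ) else 0) := by
    intro e he
    rw [hin]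
    apply Nat.cast_le.2
    apply card_le_card
    intro e' he'
    rw [hB, mem_filter] at he
    rw [hA, mem_filter] at he'
    rw [mem_filter]
    exact ⟨he'.1, fun h => he.2 (by rw [h, he'.2])⟩
  rw [← sum_filter_add_sum_filter_not E (fun e => V e = gm E V)]
  have h3 := card_nsmul_le_sum A _ _ h1
  have h4 := card_nsmul_le_sum B _ _ h2
  rw [nsmul_eq_mul] at h3 h4
  have h5 : ((mm E V : ℕ) : ℝ) = B.card := rfl
  have h6 : (B.card : ℝ) ≤ A.card := by
    have := mm_half E V hV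
    exact_mod_cast this
  have h7 : (A.card : ℝ) + B.card = E.card := by
    have := mm_add E V
    exact_mod_cast this
  rw [h5, ← h7]
  have h8 : (0 : ℝ) ≤ B.card := Nat.cast_nonneg _
  have h9 : ((A.card : ℝ) + B.card) * B.card ≤ A.card * B.card + B.card * A.card := by nlinarith
  linarith

/-! ### Shifts of sums -/

/-- the symmetric interval -/
noncomputable def SI (K : ℕ) : Finset ℤ := Icc (-(K : ℤ)) K

lemma SI_card (K : ℕ) : ((SI K).card : ℝ) = 2 * K + 1 := by
  unfold SI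
  rw [Int.card_Icc]
  have : ((K : ℤ) + 1 - -(K : ℤ)).toNat = 2 * K + 1 := by omega
  rw [this]
  push_cast
  ring

lemma sum_shift (K : ℕ) (s : ℤ) (φ : ℤ → ℝ) (h0 : ∀ e, 0 ≤ φ e) (h1 : ∀ e, φ e ≤ 1) :
    ∑ e ∈ SI K, φ (e + s) ≤ ∑ e ∈ SI K, φ e + |(s : ℝ)| := by
  classical
  have e1 : ∑ e ∈ SI K, φ (e + s) = ∑ e ∈ Icc (-(K : ℤ) + s) (K + s), φ e := by
    unfold SI
    rw [← image_add_right_Icc, sum_image (fun a _ b _ h => by simpa using h)]
  rw [e1]
  have h2 : ∑ e ∈ Icc (-(K : ℤ) + s) (K + s), φ e ≤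
      ∑ e ∈ SI K, φ e + ∑ e ∈ Icc (-(K : ℤ) + s) (K + s) \ SI K, φ e := by
    have h3 : ∑ e ∈ Icc (-(K : ℤ) + s) (K + s), φ e =
        ∑ e ∈ Icc (-(K : ℤ) + s) (K + s) ∩ SI K, φ e + ∑ e ∈ Icc (-(K : ℤ) + s) (K + s) \ SI K, φ e :=
      (sum_inter_add_sum_sdiff _ _ _).symm
    rw [h3]
    apply add_le_add _ le_rfl
    exact sum_le_sum_of_subset_of_nonneg inter_subset_right (fun e _ _ => h0 e)
  refine h2.trans (add_le_add le_rfl ?_)
  have h4 : ∑ e ∈ Icc (-(K : ℤ) + s) (K + s) \ SI K, φ e ≤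
      ((Icc (-(K : ℤ) + s) (K + s) \ SI K).card : ℝ) := by
    refine (sum_le_sum fun e _ => h1 e).trans (le_of_eq ?_)
    rw [sum_const, nsmul_eq_mul, mul_one]
  refine h4.trans ?_
  have h5 : ((Icc (-(K : ℤ) + s) (K + s) \ SI K).card : ℤ) ≤ |s| := by
    rcases le_total 0 s with hs | hs
    · have h6 : Icc (-(K : ℤ) + s) (K + s) \ SI K ⊆ Ioc (K : ℤ) (K + s) := by
        intro e he
        unfold SI at he
        rw [mem_sdiff, mem_Icc, mem_Icc] at he
        rw [mem_Ioc]
        omega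
      have h7 := card_le_card h6
      rw [Int.card_Ioc] at h7
      rw [abs_of_nonneg hs]
      omega
    · have h6 : Icc (-(K : ℤ) + s) (K + s) \ SI K ⊆ Ico (-(K : ℤ) + s) (-(K : ℤ)) := by
        intro e he
        unfold SI at he
        rw [mem_sdiff, mem_Icc, mem_Icc] at he
        rw [mem_Ico]
        omega
      have h7 := card_le_card h6
      rw [Int.card_Ico] at h7
      rw [abs_of_nonpos hs]
      omega
  have h6 : (((Icc (-(K : ℤ) + s) (K + s) \ SI K).card : ℤ) : ℝ) ≤ ((|s| : ℤ) : ℝ) := by exact_mod_cast h5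
  rw [Int.cast_abs] at h6
  exact_mod_cast h6

/-! ### Lines -/

section lines

variable {k : ℕ} (x a : Fin k → ℤ) (i1 : Fin k) (Y : ℤ → ℤ → ℤ) (σ : ℤ)

/-- the product along a line -/
def LP (u y c : ℤ) : ℤ := ∏ j, Y (u + x j) (y + c * a j)

/-- the indicator of the lines with the wrong product -/
noncomputable def Fl (u y c : ℤ) : ℝ := if LP x a Y u y c = σ then 0 else 1

/-- the value predicted by a line -/
def Vt (i : Fin k) (y e : ℤ) : ℤ := σ * ∏ j ∈ univ.erase i1, Y (x i + x j) (y + e * a j)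

lemma Fl_nonneg (u y c : ℤ) : 0 ≤ Fl x a Y σ u y c := by
  unfold Fl; split_ifs <;> norm_num

lemma Fl_le (u y c : ℤ) : Fl x a Y σ u y c ≤ 1 := by
  unfold Fl; split_ifs <;> norm_num

lemma grid (M : Fin k → Fin k → ℤ) (hM : ∀ i j, M i j ≠ 0) (hrow : ∀ b, b ≠ i1 → ∏ i, M i b = σ)
    (hcol : ∀ b, b ≠ i1 → ∏ i, M b i = σ) :
    ∏ j ∈ univ.erase i1, M j i1 = ∏ j ∈ univ.erase i1, M i1 j := by
  have h1 : ∏ b ∈ univ.erase i1, ∏ i, M i b = ∏ b ∈ univ.erase i1, ∏ i, M b i := by
    apply prod_congr rfl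
    intro b hb
    rw [mem_erase] at hb
    rw [hrow b hb.1, hcol b hb.1]
  have h2 : ∀ b, ∏ i, M i b = M i1 b * ∏ i ∈ univ.erase i1, M i b := fun b =>
    (mul_prod_erase univ _ (mem_univ i1)).symm
  have h3 : ∀ b, ∏ i, M b i = M b i1 * ∏ i ∈ univ.erase i1, M b i := fun b =>
    (mul_prod_erase univ _ (mem_univ i1)).symm
  simp only [h2, h3, prod_mul_distrib] at h1
  rw [prod_comm (s := univ.erase i1) (t := univ.erase i1) (f := fun b i => M i b)] at h1
  have h4 : ∏ i ∈ univ.erase i1, ∏ b ∈ univ.erase i1, M i b ≠ 0 :=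
    prod_ne_zero_iff.2 fun i _ => prod_ne_zero_iff.2 fun b _ => hM i b
  exact (mul_right_cancel₀ h4 h1).symm

lemma Y_ne (hY : ∀ z y, Y z y = 1 ∨ Y z y = -1) (z y : ℤ) : Y z y ≠ 0 := by
  rcases hY z y with h | h <;> rw [h] <;> norm_num

lemma prod_pm {ι : Type} (s : Finset ι) (f : ι → ℤ) (hf : ∀ i, f i = 1 ∨ f i = -1) :
    (∏ i ∈ s, f i) = 1 ∨ (∏ i ∈ s, f i) = -1 := by
  apply Finset.prod_induction f (fun z => z = 1 ∨ z = -1)
  · rintro b c (rfl | rfl) (rfl | rfl) <;> norm_num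
  · left; rfl
  · intro i _
    exact hf i

lemma Vt_pm (hY : ∀ z y, Y z y = 1 ∨ Y z y = -1) (hσ : σ = 1 ∨ σ = -1) (i : Fin k) (y e : ℤ) :
    Vt x a i1 Y σ i y e = 1 ∨ Vt x a i1 Y σ i y e = -1 := by
  unfold Vt
  rcases prod_pm (univ.erase i1) (fun j => Y (x i + x j) (y + e * a j)) (fun j => hY _ _) with h | h <;>
    rw [h] <;> rcases hσ with rfl | rfl <;> norm_num

/-- two lines through a point predict the same value if `2 (k - 1)` other lines are right -/
lemma consist (ha1 : a i1 = 0) (hY : ∀ z y, Y z y = 1 ∨ Y z y = -1) (i : Fin k) (y e e' δ : ℤ)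
    (hrow : ∀ b, b ≠ i1 → LP x a Y (x i - x i1 + x b) (y + e' * a b) (e + δ * a b) = σ)
    (hcol : ∀ b, b ≠ i1 → LP x a Y (x i - x i1 + x b) (y + e * a b) (e' + δ * a b) = σ) :
    Vt x a i1 Y σ i y e = Vt x a i1 Y σ i y e' := by
  have h := grid i1 σ (fun j b => Y (x i - x i1 + x j + x b) (y + e * a j + e' * a b + δ * a j * a b))
    (fun _ _ => Y_ne Y hY _ _) (fun b hb => by
      rw [← hrow b hb]
      unfold LP
      apply prod_congr rfl
      intro j _
      congr 1 <;> ring) (fun b hb => by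
      rw [← hcol b hb]
      unfold LP
      apply prod_congr rfl
      intro j _
      congr 1 <;> ring)
  unfold Vt
  congr 1
  have e1 : ∏ j ∈ univ.erase i1, Y (x i + x j) (y + e * a j) =
      ∏ j ∈ univ.erase i1, Y (x i - x i1 + x j + x i1) (y + e * a j + e' * a i1 + δ * a j * a i1) := by
    apply prod_congr rfl
    intro j _
    rw [ha1]
    congr 1 <;> ring
  have e2 : ∏ j ∈ univ.erase i1, Y (x i + x j) (y + e' * a j) =
      ∏ j ∈ univ.erase i1, Y (x i - x i1 + x i1 + x j) (y + e * a i1 + e' * a j + δ * a i1 * a j) := by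
    apply prod_congr rfl
    intro j _
    rw [ha1]
    congr 1 <;> ring
  rw [e1, e2, h]

/-- the product of the predictions of lines in a grid is right if `k - 1` lines are right -/
lemma exact_line (hσ : σ = 1 ∨ σ = -1) (v c e' δ : ℤ)
    (hrow : ∀ b, b ≠ i1 → LP x a Y (x b) (v + e' * a b) (c + δ * a b) = σ) :
    ∏ i, Vt x a i1 Y σ i (v + c * a i) (e' + δ * a i) = σ := by
  unfold Vt
  rw [prod_mul_distrib, prod_comm' (s := univ) (t := fun _ => univ.erase i1) (s' := fun _ => univ)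
    (t' := univ.erase i1) (by intro i j; simp)]
  have h1 : ∏ j ∈ univ.erase i1, ∏ i, Y (x i + x j) (v + c * a i + (e' + δ * a i) * a j) =
      ∏ j ∈ univ.erase i1, σ := by
    apply prod_congr rfl
    intro j hj
    rw [mem_erase] at hj
    rw [← hrow j hj.1]
    unfold LP
    apply prod_congr rfl
    intro i _
    congr 1 <;> ring
  rw [h1, prod_const, prod_const, card_univ, Fintype.card_fin, card_erase_of_mem (mem_univ _),
    card_univ, Fintype.card_fin, ← pow_add]
  have hk : 1 ≤ k := by have := i1.isLt; omega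
  have e : k + (k - 1) = 2 * (k - 1) + 1 := by omega
  rw [e, pow_succ, pow_mul]
  rcases hσ with rfl | rfl <;> norm_num

/-- the line through a point of the first column -/
lemma Fl_vote (ha1 : a i1 = 0) (hY : ∀ z y, Y z y = 1 ∨ Y z y = -1) (hσ : σ = 1 ∨ σ = -1) (y e : ℤ) :
    Fl x a Y σ (x i1) y e = if Y (x i1 + x i1) y = Vt x a i1 Y σ i1 y e then 0 else 1 := by
  unfold Fl
  have h1 : LP x a Y (x i1) y e = σ ↔ Y (x i1 + x i1) y = Vt x a i1 Y σ i1 y e := by
    unfold LP Vt
    rw [← mul_prod_erase univ _ (mem_univ i1), ha1, mul_zero, add_zero]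
    rcases prod_pm (univ.erase i1) (fun j => Y (x i1 + x j) (y + e * a j)) (fun j => hY _ _) with h | h <;>
      rw [h] <;> rcases hσ with rfl | rfl <;> rcases hY (x i1 + x i1) y with h' | h' <;> rw [h'] <;> norm_num
  by_cases h : LP x a Y (x i1) y e = σ
  · rw [if_pos h, if_pos (h1.1 h)]
  · rw [if_neg h, if_neg (fun h' => h (h1.2 h'))]

end lines

end Pool.Agent.Helper81.Gap
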